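import Pool.Agent.H52.XR2.S2

/-!
# Project XR2, row MRG: uniform marginals

`t_mrg`: a density on a planar convex body whose marginals in a dense set of directions are uniform
is symmetric, in the oblique sense, in every direction. The characteristic function at a frequency
depends only on the mean and the variance of the frequency, and the oblique reflection about the
regression line preserves both.
-/

set_option autoImplicit false

open MeasureTheory Set Filter Topology Metric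
open scoped Real ENNReal RealInnerProductSpace

namespace Pool.XR2

open Pool.Agent.H45.XR

namespace Mrg

lemma yc_fr (φ : ℝ) (q : ℝ × ℝ) : yc φ (fr φ q) = q.2 := by
  have h := Real.sin_sq_add_cos_sq φ
  simp only [fr, yc, Complex.add_re, Complex.add_im, Complex.mul_re, Complex.mul_im,
    Complex.ofReal_re, Complex.ofReal_im, e_re, e_im, Complex.I_re, Complex.I_im]
  linear_combination q.2 * h

lemma fr_tc_yc (φ : ℝ) (z : ℂ) : fr φ (tc φ z, yc φ z) = z := by
  have h := Real.sin_sq_add_cos_sq φ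
  apply Complex.ext
  · simp only [fr, tc, yc, Complex.add_re, Complex.mul_re, Complex.mul_im,
      Complex.ofReal_re, Complex.ofReal_im, e_re, e_im, Complex.I_re, Complex.I_im]
    linear_combination z.re * h
  · simp only [fr, tc, yc, Complex.add_im, Complex.mul_re, Complex.mul_im,
      Complex.ofReal_re, Complex.ofReal_im, e_re, e_im, Complex.I_re, Complex.I_im]
    linear_combination z.im * h

lemma tc_rt (φ δ : ℝ) (z : ℂ) : tc (φ + δ) z = Real.cos δ * tc φ z - Real.sin δ * yc φ z := by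
  unfold tc yc
  rw [Real.cos_add, Real.sin_add]
  ring

/-- The oblique reflection. -/
noncomputable def rf (ψ c₀ c₁ : ℝ) (z : ℂ) : ℂ := fr ψ (tc ψ z, 2 * (c₀ + c₁ * tc ψ z) - yc ψ z)

lemma tc_rf (ψ c₀ c₁ : ℝ) (z : ℂ) : tc ψ (rf ψ c₀ c₁ z) = tc ψ z := tc_fr _ _

lemma yc_rf (ψ c₀ c₁ : ℝ) (z : ℂ) :
    yc ψ (rf ψ c₀ c₁ z) = 2 * (c₀ + c₁ * tc ψ z) - yc ψ z := yc_fr _ _

lemma rf_rf (ψ c₀ c₁ : ℝ) (z : ℂ) : rf ψ c₀ c₁ (rf ψ c₀ c₁ z) = z := by
  conv_lhs => rw [rf]
  rw [tc_rf, yc_rf]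
  have e1 : 2 * (c₀ + c₁ * tc ψ z) - (2 * (c₀ + c₁ * tc ψ z) - yc ψ z) = yc ψ z := by ring
  rw [e1, fr_tc_yc]

lemma continuous_fr (φ : ℝ) : Continuous (fr φ) := by
  unfold fr
  fun_prop

lemma continuous_rf (ψ c₀ c₁ : ℝ) : Continuous (rf ψ c₀ c₁) := by
  have h1 := continuous_tc ψ
  have h2 := continuous_yc ψ
  exact (continuous_fr ψ).comp (by fun_prop)

lemma gr_mp (φ : ℝ) : MeasurePreserving (fun z : ℂ => (tc φ z, yc φ z)) volume
    (volume : Measure (ℝ × ℝ)) := by
  have hm : Measurable (fun z : ℂ => (tc φ z, yc φ z)) :=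
    ((continuous_tc φ).prodMk (continuous_yc φ)).measurable
  refine ⟨hm, ?_⟩
  have h1 := (fr_mp φ).map_eq
  have h2 : Measure.map (fun z : ℂ => (tc φ z, yc φ z)) (Measure.map (fr φ) volume) =
      (volume : Measure (ℝ × ℝ)) := by
    rw [Measure.map_map hm (fr_mp φ).measurable]
    have e1 : ((fun z : ℂ => (tc φ z, yc φ z)) ∘ fr φ) = id := by
      funext q
      simp only [Function.comp, tc_fr, yc_fr, id]
    rw [e1, Measure.map_id]
  rwa [h1] at h2

lemma rf_mp (ψ c₀ c₁ : ℝ) : MeasurePreserving (rf ψ c₀ c₁) (volume : Measure ℂ) volume := by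
  have h1 : MeasurePreserving (fun p : ℝ × ℝ => (p.1, 2 * (c₀ + c₁ * p.1) - p.2))
      (volume : Measure (ℝ × ℝ)) volume := by
    have := (MeasurePreserving.id (volume : Measure ℝ)).skew_product
      (g := fun h y : ℝ => 2 * (c₀ + c₁ * h) - y) (μc := volume) (μd := volume)
      (by
        refine Continuous.measurable ?_
        unfold Function.uncurry
        fun_prop)
      (Eventually.of_forall fun h => (Measure.measurePreserving_sub_left volume _).map_eq)
    exact this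
  exact (fr_mp ψ).comp (h1.comp (gr_mp ψ))

/-- The characteristic function of the uniform distribution with mean `x` and length `w`. -/
noncomputable def U (x w : ℝ) : ℂ :=
  ∫ v in (0 : ℝ)..1, Complex.exp (((x + w * (v - 1 / 2) : ℝ) : ℂ) * Complex.I)

lemma U_cont : Continuous (fun p : ℝ × ℝ => U p.1 p.2) := by
  unfold U
  refine intervalIntegral.continuous_parametric_intervalIntegral_of_continuous' ?_ 0 1
  unfold Function.uncurry
  fun_prop

lemma U_add (x w γ : ℝ) : Complex.exp ((γ : ℂ) * Complex.I) * U x w = U (x + γ) w := by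
  unfold U
  rw [← intervalIntegral.integral_const_mul]
  refine intervalIntegral.integral_congr fun v _ => ?_
  show Complex.exp _ * Complex.exp _ = Complex.exp _
  rw [← Complex.exp_add]
  congr 1
  push_cast
  ring

/-! ### the density -/

/-- The hypotheses on the density. -/
structure Dn (S : Set ℂ) (f : ℂ → ℝ) : Prop where
  cv : Convex ℝ S
  cp : IsCompact S
  ne : (interior S).Nonempty
  nn : ∀ z, 0 ≤ f z
  ct : ContinuousOn f (interior S)
  ps : ∀ z ∈ interior S, 0 < f z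
  zr : ∀ z, z ∉ interior S → f z = 0

variable {S : Set ℂ} {f : ℂ → ℝ}

lemma Dn.meas (h : Dn S f) : Measurable f := by
  classical
  have h1 : f = (interior S).piecewise f (fun _ => 0) := by
    funext z
    by_cases hz : z ∈ interior S
    · rw [Set.piecewise_eq_of_mem _ _ _ hz]
    · rw [Set.piecewise_eq_of_notMem _ _ _ hz]
      exact h.zr z hz
  rw [h1]
  exact h.ct.measurable_piecewise continuousOn_const isOpen_interior.measurableSet

/-- The measure with density `f`. -/
noncomputable def mu (f : ℂ → ℝ) : Measure ℂ := volume.withDensity (fun z => ENNReal.ofReal (f z))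

lemma lint_tc (h : Measurable f) (ψ : ℝ) {G : ℝ → ℝ≥0∞} (hG : Measurable G) :
    ∫⁻ z, G (tc ψ z) ∂(mu f) = ∫⁻ t, G t * ∫⁻ s, ENNReal.ofReal (f (fr ψ (t, s))) := by
  unfold mu
  have h0 : Measurable (fun z => ENNReal.ofReal (f z)) := h.ennreal_ofReal
  have hG1 : Measurable (fun z : ℂ => G (tc ψ z)) := hG.comp (continuous_tc ψ).measurable
  rw [lintegral_withDensity_eq_lintegral_mul _ h0 hG1]
  have hm := ((h0.mul hG1).comp (continuous_fr ψ).measurable).aemeasurable
    (μ := (volume : Measure ℝ).prod (volume : Measure ℝ))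
  have hp := lintegral_prod _ hm
  rw [← (fr_mp ψ).lintegral_comp (h0.mul hG1), Measure.volume_eq_prod]
  refine hp.trans ?_
  refine lintegral_congr fun t => ?_
  have h2 : Measurable (fun s : ℝ => ENNReal.ofReal (f (fr ψ (t, s)))) :=
    h0.comp ((continuous_fr ψ).comp (by fun_prop : Continuous fun s : ℝ => (t, s))).measurable
  rw [← lintegral_const_mul _ h2]
  refine lintegral_congr fun s => ?_
  simp only [Function.comp_apply, Pi.mul_apply, tc_fr]
  rw [mul_comm]

lemma map_tc (h : Dn S f) (ψ : ℝ) {c : ℝ≥0∞}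
    (hc : ∀ t : ℝ, (∃ z ∈ interior S, tc ψ z = t) →
      ∫⁻ s : ℝ, ENNReal.ofReal (f (fr ψ (t, s))) = c) :
    ∃ a b : ℝ, a < b ∧ (mu f).map (tc ψ) = c • volume.restrict (Ioo a b) := by
  set J : Set ℝ := tc ψ '' interior S with hJ
  have hJo : IsOpen J := by
    have h1 : Function.Surjective (tcL ψ) := by
      intro t
      exact ⟨fr ψ (t, 0), by rw [tcL_apply, tc_fr]⟩
    have h2 := (tcL ψ).isOpenMap h1 (interior S) isOpen_interior
    have h3 : (tcL ψ) '' interior S = J := by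
      rw [hJ]
      refine image_congr fun z _ => tcL_apply ψ z
    rwa [h3] at h2
  have hJne : J.Nonempty := h.ne.image _
  have hJc : IsPreconnected J :=
    h.cv.interior.isPreconnected.image _ (continuous_tc ψ).continuousOn
  have hcp : IsCompact (tc ψ '' S) := h.cp.image (continuous_tc ψ)
  have hsub : J ⊆ tc ψ '' S := image_mono interior_subset
  have hbb : BddBelow J := hcp.bddBelow.mono hsub
  have hba : BddAbove J := hcp.bddAbove.mono hsub
  have hJ1 : J = Ioo (sInf J) (sSup J) := by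
    refine Subset.antisymm ?_ (IsConnected.Ioo_csInf_csSup_subset ⟨hJne, hJc⟩ hbb hba)
    have h1 : J ⊆ Icc (sInf J) (sSup J) := subset_Icc_csInf_csSup hbb hba
    have h2 := interior_mono h1
    rwa [hJo.interior_eq, interior_Icc] at h2
  refine ⟨sInf J, sSup J, ?_, ?_⟩
  · obtain ⟨x, hx⟩ := hJne
    rw [hJ1] at hx
    exact hx.1.trans hx.2
  · rw [← hJ1]
    ext T hT
    rw [Measure.map_apply (continuous_tc ψ).measurable hT, Measure.smul_apply,
      Measure.restrict_apply hT, smul_eq_mul]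
    have h1 := lint_tc h.meas ψ (G := T.indicator 1) (measurable_one.indicator hT)
    have h2 : ∫⁻ z, (T.indicator (1 : ℝ → ℝ≥0∞)) (tc ψ z) ∂(mu f) = mu f (tc ψ ⁻¹' T) := by
      rw [← lintegral_indicator_one ((continuous_tc ψ).measurable hT)]
      rfl
    rw [← h2, h1]
    have h3 : ∀ t : ℝ, T.indicator (1 : ℝ → ℝ≥0∞) t * ∫⁻ s, ENNReal.ofReal (f (fr ψ (t, s))) =
        c * (T ∩ J).indicator 1 t := by
      intro t
      by_cases ht : t ∈ J
      · rw [hc t ht]
        by_cases hT1 : t ∈ T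
        · rw [indicator_of_mem hT1, indicator_of_mem (mem_inter hT1 ht), mul_comm]
        · have h6 : t ∉ T ∩ J := fun hh => hT1 hh.1
          rw [indicator_of_notMem hT1, indicator_of_notMem h6, zero_mul, mul_zero]
      · have h4 : ∫⁻ s, ENNReal.ofReal (f (fr ψ (t, s))) = 0 := by
          have h5 : ∀ s : ℝ, ENNReal.ofReal (f (fr ψ (t, s))) = 0 := by
            intro s
            rw [h.zr _ (fun hh => ht ⟨_, hh, tc_fr _ _⟩), ENNReal.ofReal_zero]
          simp only [h5, lintegral_zero]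
        have h6 : t ∉ T ∩ J := fun hh => ht hh.2
        rw [h4, indicator_of_notMem h6, mul_zero, mul_zero]
    simp only [h3]
    rw [lintegral_const_mul _ (measurable_one.indicator (hT.inter hJo.measurableSet)),
      lintegral_indicator_one (hT.inter hJo.measurableSet)]

lemma mu_pos (h : Dn S f) : 0 < mu f (interior S) := by
  unfold mu
  rw [withDensity_apply _ isOpen_interior.measurableSet,
    setLIntegral_pos_iff h.meas.ennreal_ofReal]
  have h1 : interior S ⊆ Function.support (fun z => ENNReal.ofReal (f z)) ∩ interior S := by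
    intro z hz
    refine ⟨?_, hz⟩
    rw [Function.mem_support]
    exact (ENNReal.ofReal_pos.2 (h.ps z hz)).ne'
  exact lt_of_lt_of_le (isOpen_interior.measure_pos _ h.ne) (measure_mono h1)

lemma mu_out (h : Dn S f) : mu f Sᶜ = 0 := by
  unfold mu
  rw [withDensity_apply _ h.cp.measurableSet.compl]
  have h1 : ∀ z ∈ Sᶜ, ENNReal.ofReal (f z) = 0 := by
    intro z hz
    rw [h.zr z (fun hh => hz (interior_subset hh)), ENNReal.ofReal_zero]
  rw [setLIntegral_congr_fun h.cp.measurableSet.compl h1, lintegral_zero]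

lemma int_S {E : Type*} [NormedAddCommGroup E] [NormedSpace ℝ E] (h : Dn S f) (g : ℂ → E) :
    ∫ z, g z ∂(mu f) = ∫ z in S, g z ∂(mu f) := by
  have h1 : (mu f).restrict S = mu f := by
    rw [Measure.restrict_eq_self_of_ae_mem]
    rw [ae_iff]
    exact mu_out h
  rw [h1]

lemma integ {E : Type*} [NormedAddCommGroup E] [NormedSpace ℝ E] [IsFiniteMeasure (mu f)]
    (h : Dn S f) {g : ℂ → E} (hg : Continuous g) : Integrable g (mu f) := by
  have h1 : (mu f).restrict S = mu f := by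
    rw [Measure.restrict_eq_self_of_ae_mem]
    rw [ae_iff]
    exact mu_out h
  rw [← h1]
  exact hg.continuousOn.integrableOn_compact h.cp

lemma cont_int {E : Type*} [NormedAddCommGroup E] [NormedSpace ℝ E] [IsFiniteMeasure (mu f)]
    (h : Dn S f) {g : ℝ → ℂ → E} (hg : Continuous g.uncurry) :
    Continuous fun ψ => ∫ z, g ψ z ∂(mu f) := by
  have h1 := continuous_parametric_integral_of_continuous (μ := mu f) hg h.cp
  have h2 : (fun ψ => ∫ z, g ψ z ∂(mu f)) = (fun ψ => ∫ z in S, g ψ z ∂(mu f)) := by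
    funext ψ
    exact int_S h _
  rw [h2]
  exact h1

/-! ### moments -/

/-- The mass. -/
noncomputable def ms (f : ℂ → ℝ) : ℝ := ∫ _, (1 : ℝ) ∂(mu f)

/-- The mean of `tc ψ`. -/
noncomputable def mA (f : ℂ → ℝ) (ψ : ℝ) : ℝ := (∫ z, tc ψ z ∂(mu f)) / ms f

/-- The variance of `tc ψ`. -/
noncomputable def mV (f : ℂ → ℝ) (ψ : ℝ) : ℝ := (∫ z, (tc ψ z - mA f ψ) ^ 2 ∂(mu f)) / ms f

lemma ms_pos [IsFiniteMeasure (mu f)] (h : Dn S f) : 0 < ms f := by
  unfold ms
  rw [integral_const, smul_eq_mul, mul_one, Measure.real]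
  refine ENNReal.toReal_pos ?_ (measure_ne_top _ _)
  exact (lt_of_lt_of_le (mu_pos h) (measure_mono (subset_univ _))).ne'

lemma int_map {E : Type*} [NormedAddCommGroup E] [NormedSpace ℝ E] {ψ a b : ℝ} {c : ℝ≥0∞}
    (hab : a < b) (hm : (mu f).map (tc ψ) = c • volume.restrict (Ioo a b)) {G : ℝ → E}
    (hG : Continuous G) :
    ∫ z, G (tc ψ z) ∂(mu f) = c.toReal • ∫ t in a..b, G t := by
  rw [← integral_map (continuous_tc ψ).aemeasurable
    (by rw [hm]; exact hG.aestronglyMeasurable), hm, integral_smul_measure,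
    intervalIntegral.integral_of_le hab.le, integral_Ioc_eq_integral_Ioo]

lemma star (h : Dn S f) [IsFiniteMeasure (mu f)] {ψ a b : ℝ} {c : ℝ≥0∞}
    (hab : a < b) (hm : (mu f).map (tc ψ) = c • volume.restrict (Ioo a b)) (s : ℝ) :
    ∫ z, Complex.exp (((s * tc ψ z : ℝ) : ℂ) * Complex.I) ∂(mu f) =
      (ms f : ℂ) * U (s * mA f ψ) (s * √(12 * mV f ψ)) := by
  have h1 : ms f = c.toReal * (b - a) := by
    have := int_map (E := ℝ) hab hm (G := fun _ => (1 : ℝ)) continuous_const
    rw [smul_eq_mul, intervalIntegral.integral_const, smul_eq_mul, mul_one] at this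
    exact this
  have hpos := ms_pos h
  have hc : c.toReal ≠ 0 := by
    intro h0
    rw [h1, h0, zero_mul] at hpos
    exact lt_irrefl _ hpos
  have hba : b - a ≠ 0 := (sub_pos.2 hab).ne'
  have h2 : mA f ψ = (a + b) / 2 := by
    have := int_map (E := ℝ) hab hm (G := fun t => t) continuous_id
    unfold mA
    rw [this, h1, smul_eq_mul, integral_id]
    field_simp
    ring
  have h3 : mV f ψ = (b - a) ^ 2 / 12 := by
    have := int_map (E := ℝ) hab hm (G := fun t => (t - mA f ψ) ^ 2) (by fun_prop)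
    unfold mV
    rw [this, h1, smul_eq_mul, h2]
    have h4 : ∫ t in a..b, (t - (a + b) / 2) ^ 2 = (b - a) ^ 3 / 12 := by
      rw [intervalIntegral.integral_comp_sub_right (fun t => t ^ 2), integral_pow]
      norm_num
      ring
    rw [h4]
    field_simp
  have h5 : √(12 * mV f ψ) = b - a := by
    rw [h3]
    have : 12 * ((b - a) ^ 2 / 12) = (b - a) ^ 2 := by ring
    rw [this, Real.sqrt_sq (sub_pos.2 hab).le]
  rw [h5, h2]
  have h6 := int_map (E := ℂ) hab hm
    (G := fun t => Complex.exp (((s * t : ℝ) : ℂ) * Complex.I)) (by fun_prop)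
  rw [h6]
  have h7 : ∫ t in a..b, Complex.exp (((s * t : ℝ) : ℂ) * Complex.I) =
      ((b - a : ℝ) : ℂ) * U (s * ((a + b) / 2)) (s * (b - a)) := by
    unfold U
    have h8 := intervalIntegral.integral_comp_mul_add
      (fun t : ℝ => Complex.exp (((s * t : ℝ) : ℂ) * Complex.I)) (a := 0) (b := 1) hba a
    have h9 : (b - a) * 0 + a = a := by ring
    have h10 : (b - a) * 1 + a = b := by ring
    rw [h9, h10] at h8
    have h11 : ∫ t in a..b, Complex.exp (((s * t : ℝ) : ℂ) * Complex.I) =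
        (b - a) • ∫ x in (0 : ℝ)..1, Complex.exp (((s * ((b - a) * x + a) : ℝ) : ℂ) * Complex.I) := by
      rw [h8, smul_smul, mul_inv_cancel₀ hba, one_smul]
    rw [h11, Complex.real_smul]
    congr 1
    refine intervalIntegral.integral_congr fun v _ => ?_
    show Complex.exp _ = Complex.exp _
    congr 1
    push_cast
    ring
  rw [h7, h1]
  rw [Complex.real_smul]
  push_cast
  ring

lemma cont_tc2 : Continuous (fun p : ℝ × ℂ => tc p.1 p.2) := by
  unfold tc
  fun_prop

lemma mA_cont (h : Dn S f) [IsFiniteMeasure (mu f)] : Continuous (mA f) := by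
  unfold mA
  exact (cont_int h (g := fun ψ z => tc ψ z) cont_tc2).div_const _

lemma mV_cont (h : Dn S f) [IsFiniteMeasure (mu f)] : Continuous (mV f) := by
  unfold mV
  refine (cont_int h (g := fun ψ z => (tc ψ z - mA f ψ) ^ 2) ?_).div_const _
  have h1 := mA_cont h
  exact ((cont_tc2.sub (h1.comp continuous_fst)).pow 2)

/-- The characteristic function, in one direction. -/
lemma star_all (h : Dn S f) [IsFiniteMeasure (mu f)] {D : Set ℝ} (hD : Dense D)
    (hst : ∀ ψ ∈ D, ∀ s : ℝ, ∫ z, Complex.exp (((s * tc ψ z : ℝ) : ℂ) * Complex.I) ∂(mu f) =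
      (ms f : ℂ) * U (s * mA f ψ) (s * √(12 * mV f ψ))) (ψ s : ℝ) :
    ∫ z, Complex.exp (((s * tc ψ z : ℝ) : ℂ) * Complex.I) ∂(mu f) =
      (ms f : ℂ) * U (s * mA f ψ) (s * √(12 * mV f ψ)) := by
  have h1 : Continuous (fun ψ => ∫ z, Complex.exp (((s * tc ψ z : ℝ) : ℂ) * Complex.I) ∂(mu f)) := by
    refine cont_int h (g := fun ψ z => Complex.exp (((s * tc ψ z : ℝ) : ℂ) * Complex.I)) ?_
    have := cont_tc2
    unfold Function.uncurry
    fun_prop
  have h2 : Continuous (fun ψ => (ms f : ℂ) * U (s * mA f ψ) (s * √(12 * mV f ψ))) := by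
    have ha := mA_cont h
    have hv := mV_cont h
    refine continuous_const.mul ?_
    exact U_cont.comp (f := fun ψ => (s * mA f ψ, s * √(12 * mV f ψ))) (by fun_prop)
  have h3 := h1.ext_on hD h2 (fun ψ hψ => hst ψ hψ s)
  exact congrFun h3 ψ

/-- The second moments. -/
noncomputable def s11 (f : ℂ → ℝ) (ψ : ℝ) : ℝ :=
  (∫ z, (tc ψ z - mA f ψ) ^ 2 ∂(mu f)) / ms f

/-- The mean of `yc ψ`. -/
noncomputable def mB (f : ℂ → ℝ) (ψ : ℝ) : ℝ := (∫ z, yc ψ z ∂(mu f)) / ms f

/-- The covariance. -/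
noncomputable def s12 (f : ℂ → ℝ) (ψ : ℝ) : ℝ :=
  (∫ z, (tc ψ z - mA f ψ) * (yc ψ z - mB f ψ) ∂(mu f)) / ms f

/-- The variance of `yc ψ`. -/
noncomputable def s22 (f : ℂ → ℝ) (ψ : ℝ) : ℝ :=
  (∫ z, (yc ψ z - mB f ψ) ^ 2 ∂(mu f)) / ms f

/-- The characteristic function. -/
lemma star_gen (h : Dn S f) [IsFiniteMeasure (mu f)]
    (hst : ∀ ψ s : ℝ, ∫ z, Complex.exp (((s * tc ψ z : ℝ) : ℂ) * Complex.I) ∂(mu f) =
      (ms f : ℂ) * U (s * mA f ψ) (s * √(12 * mV f ψ))) (ψ α β : ℝ) :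
    ∫ z, Complex.exp (((α * tc ψ z + β * yc ψ z : ℝ) : ℂ) * Complex.I) ∂(mu f) =
      (ms f : ℂ) * U (α * mA f ψ + β * mB f ψ)
        (√(12 * (α ^ 2 * s11 f ψ + 2 * (α * β) * s12 f ψ + β ^ 2 * s22 f ψ))) := by
  obtain ⟨s, δ, hs, hα, hβ⟩ : ∃ s δ : ℝ, 0 ≤ s ∧ α = s * Real.cos δ ∧ β = -(s * Real.sin δ) := by
    refine ⟨‖(⟨α, -β⟩ : ℂ)‖, Complex.arg ⟨α, -β⟩, norm_nonneg _, ?_, ?_⟩
    · rw [Complex.norm_mul_cos_arg]
    · rw [Complex.norm_mul_sin_arg, neg_neg]
  have hm := ms_pos h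
  have itc : Integrable (tc ψ) (mu f) := integ h (continuous_tc ψ)
  have iyc : Integrable (yc ψ) (mu f) := integ h (continuous_yc ψ)
  have e1 : ∀ z, s * tc (ψ + δ) z = α * tc ψ z + β * yc ψ z := by
    intro z
    rw [tc_rt, hα, hβ]
    ring
  have e2 : s * mA f (ψ + δ) = α * mA f ψ + β * mB f ψ := by
    unfold mA mB
    rw [mul_div_assoc', ← integral_const_mul]
    simp only [e1]
    rw [integral_add (itc.const_mul α) (iyc.const_mul β), integral_const_mul, integral_const_mul]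
    ring
  have e3 : s ^ 2 * mV f (ψ + δ) =
      α ^ 2 * s11 f ψ + 2 * (α * β) * s12 f ψ + β ^ 2 * s22 f ψ := by
    unfold mV s11 s12 s22
    rw [mul_div_assoc', ← integral_const_mul]
    have e4 : ∀ z, s ^ 2 * (tc (ψ + δ) z - mA f (ψ + δ)) ^ 2 =
        (α ^ 2 * (tc ψ z - mA f ψ) ^ 2 + 2 * (α * β) * ((tc ψ z - mA f ψ) * (yc ψ z - mB f ψ))) +
          β ^ 2 * (yc ψ z - mB f ψ) ^ 2 := by
      intro z
      have : s ^ 2 * (tc (ψ + δ) z - mA f (ψ + δ)) ^ 2 =
          (s * tc (ψ + δ) z - s * mA f (ψ + δ)) ^ 2 := by ring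
      rw [this, e1, e2]
      ring
    simp only [e4]
    have c1 := continuous_tc ψ
    have c2 := continuous_yc ψ
    have i1 : Integrable (fun z => α ^ 2 * (tc ψ z - mA f ψ) ^ 2) (mu f) :=
      integ h (by fun_prop)
    have i2 : Integrable (fun z => 2 * (α * β) * ((tc ψ z - mA f ψ) * (yc ψ z - mB f ψ)))
        (mu f) := integ h (by fun_prop)
    have i3 : Integrable (fun z => β ^ 2 * (yc ψ z - mB f ψ) ^ 2) (mu f) :=
      integ h (by fun_prop)
    have i12 : Integrable (fun z => α ^ 2 * (tc ψ z - mA f ψ) ^ 2 +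
        2 * (α * β) * ((tc ψ z - mA f ψ) * (yc ψ z - mB f ψ))) (mu f) := i1.add i2
    rw [integral_add i12 i3, integral_add i1 i2, integral_const_mul, integral_const_mul,
      integral_const_mul]
    ring
  have e5 : s * √(12 * mV f (ψ + δ)) =
      √(12 * (α ^ 2 * s11 f ψ + 2 * (α * β) * s12 f ψ + β ^ 2 * s22 f ψ)) := by
    rw [← e3]
    have : 12 * (s ^ 2 * mV f (ψ + δ)) = s ^ 2 * (12 * mV f (ψ + δ)) := by ring
    rw [this, Real.sqrt_mul (sq_nonneg s), Real.sqrt_sq hs]
  have e6 := hst (ψ + δ) s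
  rw [e2, e5] at e6
  rw [← e6]
  simp only [e1]

lemma inner_tc (ψ : ℝ) (z ξ : ℂ) : ⟪z, ξ⟫ = tc ψ z * tc ψ ξ + yc ψ z * yc ψ ξ := by
  have h := Real.sin_sq_add_cos_sq ψ
  rw [Complex.inner, Complex.mul_re, Complex.conj_re, Complex.conj_im]
  unfold tc yc
  linear_combination (-(z.re * ξ.re) - z.im * ξ.im) * h

/-- The measure is invariant under the reflection about the regression line. -/
lemma mu_rf (h : Dn S f) [IsFiniteMeasure (mu f)] (ψ : ℝ)
    (hst : ∀ α β : ℝ, ∫ z, Complex.exp (((α * tc ψ z + β * yc ψ z : ℝ) : ℂ) * Complex.I) ∂(mu f) =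
      (ms f : ℂ) * U (α * mA f ψ + β * mB f ψ)
        (√(12 * (α ^ 2 * s11 f ψ + 2 * (α * β) * s12 f ψ + β ^ 2 * s22 f ψ)))) :
    ∃ c₀ c₁ : ℝ, (mu f).map (rf ψ c₀ c₁) = mu f := by
  have hm := ms_pos h
  obtain ⟨c₁, hc₁⟩ : ∃ c₁ : ℝ, c₁ * s11 f ψ = s12 f ψ := by
    by_cases h0 : s11 f ψ = 0
    · refine ⟨0, ?_⟩
      have h1 : ∫ z, (tc ψ z - mA f ψ) ^ 2 ∂(mu f) = 0 := by
        unfold s11 at h0
        rcases div_eq_zero_iff.1 h0 with h2 | h2
        · exact h2
        · exact absurd h2 hm.ne'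
      have c1 : Continuous (fun z => (tc ψ z - mA f ψ) ^ 2) :=
        ((continuous_tc ψ).sub continuous_const).pow 2
      rw [integral_eq_zero_iff_of_nonneg (fun z => sq_nonneg _) (integ h c1)] at h1
      have h2 : ∫ z, (tc ψ z - mA f ψ) * (yc ψ z - mB f ψ) ∂(mu f) = 0 := by
        have h3 : (fun z => (tc ψ z - mA f ψ) * (yc ψ z - mB f ψ)) =ᵐ[mu f] 0 := by
          filter_upwards [h1] with z hz
          have h4 : tc ψ z - mA f ψ = 0 := by
            simpa using hz
          simp only [h4, zero_mul, Pi.zero_apply]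
        rw [integral_congr_ae h3]
        simp
      unfold s12
      rw [h2]
      simp
    · exact ⟨s12 f ψ / s11 f ψ, by field_simp⟩
  refine ⟨mB f ψ - c₁ * mA f ψ, c₁, ?_⟩
  set c₀ : ℝ := mB f ψ - c₁ * mA f ψ with hc₀
  have hR := continuous_rf ψ c₀ c₁
  have hfm : IsFiniteMeasure ((mu f).map (rf ψ c₀ c₁)) :=
    Measure.isFiniteMeasure_map _ _
  refine Measure.ext_of_charFun ?_
  funext ξ
  rw [charFun_apply, charFun_apply, integral_map hR.aemeasurable (by fun_prop)]
  set α := tc ψ ξ with hα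
  set β := yc ψ ξ with hβ
  have e1 : ∀ z : ℂ, ((⟪z, ξ⟫ : ℝ) : ℂ) = ((α * tc ψ z + β * yc ψ z : ℝ) : ℂ) := by
    intro z
    rw [inner_tc ψ]
    congr 1
    ring
  have e2 : ∀ z : ℂ, Complex.exp (((⟪rf ψ c₀ c₁ z, ξ⟫ : ℝ) : ℂ) * Complex.I) =
      Complex.exp (((2 * c₀ * β : ℝ) : ℂ) * Complex.I) *
        Complex.exp ((((α + 2 * c₁ * β) * tc ψ z + (-β) * yc ψ z : ℝ) : ℂ) * Complex.I) := by
    intro z
    rw [inner_tc ψ, tc_rf, yc_rf, ← Complex.exp_add]
    congr 1
    rw [← hα, ← hβ]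
    push_cast
    ring
  simp only [e2]
  simp only [e1]
  rw [integral_const_mul, hst, hst, ← mul_assoc, mul_comm (Complex.exp _) (ms f : ℂ), mul_assoc,
    U_add]
  congr 2
  · rw [hc₀]
    ring
  · congr 1
    rw [← hc₁]
    ring

/-- The density is invariant almost everywhere. -/
lemma f_rf (h : Dn S f) [IsFiniteMeasure (mu f)] {ψ c₀ c₁ : ℝ}
    (hmu : (mu f).map (rf ψ c₀ c₁) = mu f) :
    ∀ᵐ z : ℂ, f z = f (rf ψ c₀ c₁ z) := by
  set R := rf ψ c₀ c₁ with hR
  have hRc : Continuous R := continuous_rf ψ c₀ c₁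
  have hRR : ∀ z, R (R z) = z := rf_rf ψ c₀ c₁
  have hmp : MeasurePreserving R volume volume := rf_mp ψ c₀ c₁
  have hme := h.meas
  have h1 : volume.withDensity (fun z => ENNReal.ofReal (f z)) =
      volume.withDensity (fun z => ENNReal.ofReal (f (R z))) := by
    ext T hT
    have h2 : mu f T = mu f (R ⁻¹' T) := by
      conv_lhs => rw [← hmu]
      rw [Measure.map_apply hRc.measurable hT]
    have h3 : mu f T = volume.withDensity (fun z => ENNReal.ofReal (f z)) T := rfl
    rw [← h3, h2]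
    unfold mu
    rw [withDensity_apply _ (hRc.measurable hT), withDensity_apply _ hT]
    have h4 : Measurable (fun z => ENNReal.ofReal (f (R z))) :=
      (hme.comp hRc.measurable).ennreal_ofReal
    rw [← hmp.setLIntegral_comp_preimage hT h4]
    simp only [hRR]
  have hfin : ∫⁻ z, ENNReal.ofReal (f z) ≠ ⊤ := by
    have h4 : mu f univ ≠ ⊤ := measure_ne_top _ _
    unfold mu at h4
    rwa [withDensity_apply _ MeasurableSet.univ, Measure.restrict_univ] at h4
  have h6 : Measurable (fun z => ENNReal.ofReal (f (R z))) :=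
    (hme.comp hRc.measurable).ennreal_ofReal
  have h7 := (withDensity_eq_iff hme.ennreal_ofReal.aemeasurable h6.aemeasurable hfin).1 h1
  filter_upwards [h7] with z hz
  have h5 : ENNReal.ofReal (f z) = ENNReal.ofReal (f (R z)) := hz
  rwa [ENNReal.ofReal_eq_ofReal_iff (h.nn _) (h.nn _)] at h5

/-- The density is invariant. -/
lemma f_rf_all (h : Dn S f) {R : ℂ → ℂ} (hRc : Continuous R) (hRR : ∀ z, R (R z) = z)
    (hae : ∀ᵐ z : ℂ, f z = f (R z)) (z : ℂ) : f (R z) = f z := by
  set O := interior S with hO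
  have hOo : IsOpen O := isOpen_interior
  have hnull : ∀ A : Set ℂ, IsOpen A → (∀ z ∈ A, f z ≠ f (R z)) → A = ∅ := by
    intro A hA h1
    by_contra hne
    have h2 : 0 < volume A := hA.measure_pos _ (nonempty_iff_ne_empty.2 hne)
    have h3 : volume A = 0 := by
      refine measure_mono_null ?_ (ae_iff.1 hae)
      intro z hz
      exact h1 z hz
    exact h2.ne' h3
  have h1 : ∀ z ∈ O, R z ∈ S := by
    by_contra hcon
    push Not at hcon
    obtain ⟨z, hz, hRz⟩ := hcon
    have h2 := hnull (O ∩ R ⁻¹' Sᶜ) (hOo.inter (h.cp.isClosed.isOpen_compl.preimage hRc)) (by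
      intro w hw
      have h3 := h.ps w hw.1
      have h4 : f (R w) = 0 := h.zr _ (fun hh => hw.2 (interior_subset hh))
      rw [h4]
      exact h3.ne')
    have h5 : z ∈ (∅ : Set ℂ) := by
      rw [← h2]
      exact ⟨hz, hRz⟩
    exact h5
  have h2 : ∀ z ∈ O, R z ∈ O := by
    have h3 : R ⁻¹' O ⊆ O := by
      rw [hO]
      refine interior_maximal ?_ (hOo.preimage hRc)
      intro w hw
      have := h1 _ hw
      rwa [hRR] at this
    intro z hz
    refine h3 ?_
    show R (R z) ∈ O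
    rw [hRR]
    exact hz
  have h3 : ∀ z ∈ O, f z = f (R z) := by
    have hc2 : ContinuousOn (fun z => f (R z)) O := h.ct.comp hRc.continuousOn h2
    have h4 : IsOpen (O ∩ {z | f z - f (R z) ≠ 0}) := by
      have := (h.ct.sub hc2).isOpen_inter_preimage hOo (t := {0}ᶜ) isOpen_compl_singleton
      exact this
    have h5 := hnull _ h4 (fun w hw hh => hw.2 (by rw [hh, sub_self]))
    intro z hz
    by_contra hne
    have h6 : z ∈ (∅ : Set ℂ) := by
      rw [← h5]
      exact ⟨hz, fun hh => hne (sub_eq_zero.1 hh)⟩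
    exact h6
  by_cases hz : z ∈ O
  · exact (h3 z hz).symm
  · have h4 : R z ∉ O := by
      intro hh
      have := h2 _ hh
      rw [hRR] at this
      exact hz this
    rw [h.zr _ hz, h.zr _ h4]

end Mrg

open Mrg in
/-- Row MRG. -/
theorem t_mrg : MRGStmt := by
  intro S f D hcv hcp hne hnn hct hps hzr hD hmain ψ
  have h : Dn S f := ⟨hcv, hcp, hne, hnn, hct, hps, hzr⟩
  obtain ⟨ψ₀, hψ₀⟩ := hD.nonempty
  obtain ⟨c, hc, hcc⟩ := hmain ψ₀ hψ₀
  obtain ⟨a, b, hab, hmap⟩ := map_tc h ψ₀ hcc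
  have hfm : IsFiniteMeasure (mu f) := by
    refine ⟨?_⟩
    have h1 : mu f univ = (mu f).map (tc ψ₀) univ := by
      rw [Measure.map_apply (continuous_tc ψ₀).measurable MeasurableSet.univ, preimage_univ]
    rw [h1, hmap, Measure.smul_apply, smul_eq_mul, Measure.restrict_apply MeasurableSet.univ,
      univ_inter, Real.volume_Ioo]
    exact ENNReal.mul_lt_top (lt_top_iff_ne_top.2 hc) ENNReal.ofReal_lt_top
  have h1 : ∀ ψ ∈ D, ∀ s : ℝ, ∫ z, Complex.exp (((s * tc ψ z : ℝ) : ℂ) * Complex.I) ∂(mu f) =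
      (ms f : ℂ) * U (s * mA f ψ) (s * √(12 * mV f ψ)) := by
    intro ψ' hψ' s
    obtain ⟨c', hc', hcc'⟩ := hmain ψ' hψ'
    obtain ⟨a', b', hab', hmap'⟩ := map_tc h ψ' hcc'
    exact star h hab' hmap' s
  have h2 := star_gen h (star_all h hD h1)
  obtain ⟨c₀, c₁, h3⟩ := mu_rf h ψ (h2 ψ)
  refine ⟨c₀, c₁, fun t x => ?_⟩
  have h4 := f_rf_all h (continuous_rf ψ c₀ c₁) (rf_rf ψ c₀ c₁) (f_rf h h3)
    (fr ψ (t, c₀ + c₁ * t + x))
  have h5 : rf ψ c₀ c₁ (fr ψ (t, c₀ + c₁ * t + x)) = fr ψ (t, c₀ + c₁ * t - x) := by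
    unfold rf
    rw [tc_fr, yc_fr]
    congr 2
    simp only
    ring
  rw [h5] at h4
  exact h4.symm

end Pool.XR2
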