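import Pool.Agent.H52.XR2.S2

/-!
# Project XR2, rows NSU and SXL
-/

set_option autoImplicit false

open MeasureTheory Set Filter Topology Metric
open scoped Real ENNReal RealInnerProductSpace

namespace Pool.XR2

open Pool.Agent.H45.XR

/-- Row NSU. -/
theorem t_nsu : NSUStmt := by
  intro K b hK hns h hh
  have hK3 := body3_preimage b hK
  refine noSeg_tr ?_
  intro p hp q hq hpq ht
  rw [interior_sec hK3 hh]
  have hint : interior (coordE b ⁻¹' K) = coordE b ⁻¹' interior K :=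
    ((coordE b).toHomeomorph.preimage_interior K).symm
  have him : p.im = q.im := by
    simpa [tc] using ht
  have hre : q.re - p.re ≠ 0 := by
    intro h0
    refine hpq (Complex.ext ?_ him)
    linarith
  have hp1 : coord b (p, h) ∈ K := hp
  have hq1 : coord b (q, h) ∈ K := hq
  have e1 : ∀ t : ℝ, coord b (p, h) + t • b 0 = coord b (p + (t : ℂ), h) := by
    intro t
    simp only [coord, Complex.add_re, Complex.ofReal_re, Complex.add_im, Complex.ofReal_im,
      add_zero, add_smul]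
    abel
  have e2 : p + ((q.re - p.re : ℝ) : ℂ) = q := by
    apply Complex.ext
    · rw [Complex.add_re, Complex.ofReal_re]
      ring
    · rw [Complex.add_im, Complex.ofReal_im, add_zero, him]
  obtain ⟨t, ht1⟩ := hns (coord b (p, h)) hp1 (q.re - p.re) hre (by rw [e1, e2]; exact hq1)
  rw [e1] at ht1
  refine ⟨p + (t : ℂ), ?_, ?_⟩
  · show (p + (t : ℂ), h) ∈ interior (coordE b ⁻¹' K)
    rw [hint]
    exact ht1
  · simp [tc]

namespace Sxl

lemma dg_add (ψ a b : ℝ) (z w : ℂ) : Dg ψ a b (z + w) = Dg ψ a b z + Dg ψ a b w := by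
  unfold Dg tc yc
  push_cast [Complex.add_re, Complex.add_im]
  ring

lemma dg_smul (ψ a b t : ℝ) (z : ℂ) : Dg ψ a b ((t : ℂ) * z) = (t : ℂ) * Dg ψ a b z := by
  unfold Dg tc yc
  simp only [Complex.mul_re, Complex.mul_im, Complex.ofReal_re, Complex.ofReal_im]
  push_cast
  ring

lemma tc_dg (ψ a b : ℝ) (z : ℂ) : tc ψ (Dg ψ a b z) = b * tc ψ z := by
  have h := Real.sin_sq_add_cos_sq ψ
  have : tc ψ (Dg ψ a b z) = (Real.cos ψ ^ 2 + Real.sin ψ ^ 2) * (b * tc ψ z) := by
    unfold Dg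
    generalize a * yc ψ z = A
    generalize b * tc ψ z = B
    simp only [tc, Complex.add_re, Complex.add_im, Complex.mul_re, Complex.mul_im,
      Complex.ofReal_re, Complex.ofReal_im, e_re, e_im, Complex.I_re, Complex.I_im]
    ring
  rw [this, add_comm (Real.cos ψ ^ 2), h, one_mul]

lemma yc_dg (ψ a b : ℝ) (z : ℂ) : yc ψ (Dg ψ a b z) = a * yc ψ z := by
  have h := Real.sin_sq_add_cos_sq ψ
  have : yc ψ (Dg ψ a b z) = (Real.cos ψ ^ 2 + Real.sin ψ ^ 2) * (a * yc ψ z) := by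
    unfold Dg
    generalize a * yc ψ z = A
    generalize b * tc ψ z = B
    simp only [yc, Complex.add_re, Complex.add_im, Complex.mul_re, Complex.mul_im,
      Complex.ofReal_re, Complex.ofReal_im, e_re, e_im, Complex.I_re, Complex.I_im]
    ring
  rw [this, add_comm (Real.cos ψ ^ 2), h, one_mul]

lemma eq_dg (ψ : ℝ) (z : ℂ) : ((yc ψ z : ℝ) : ℂ) * e ψ + ((tc ψ z : ℝ) : ℂ) * (Complex.I * e ψ) = z := by
  have h := Real.sin_sq_add_cos_sq ψ
  apply Complex.ext
  · simp only [tc, yc, Complex.add_re, Complex.mul_re, Complex.mul_im,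
      Complex.ofReal_re, Complex.ofReal_im, e_re, e_im, Complex.I_re, Complex.I_im]
    linear_combination z.re * h
  · simp only [tc, yc, Complex.add_im, Complex.mul_re, Complex.mul_im,
      Complex.ofReal_re, Complex.ofReal_im, e_re, e_im, Complex.I_re, Complex.I_im]
    linear_combination z.im * h

lemma dg_inv {ψ a b : ℝ} (ha : 0 < a) (hb : 0 < b) (z : ℂ) : Dg ψ a⁻¹ b⁻¹ (Dg ψ a b z) = z := by
  conv_lhs => rw [Dg]
  rw [tc_dg, yc_dg, inv_mul_cancel_left₀ ha.ne', inv_mul_cancel_left₀ hb.ne', eq_dg]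

lemma dg_inv' {ψ a b : ℝ} (ha : 0 < a) (hb : 0 < b) (z : ℂ) : Dg ψ a b (Dg ψ a⁻¹ b⁻¹ z) = z := by
  have := dg_inv (ψ := ψ) (inv_pos.2 ha) (inv_pos.2 hb) z
  rwa [inv_inv, inv_inv] at this

end Sxl

open Sxl in
/-- Row SXL. -/
theorem t_sxl : SXLStmt := by
  intro C C' φ φ' ψ a b s hX ha hb hs he p
  have key : ∀ L : Set ℂ, volume {t : ℝ | p + t * e φ' ∈ Dg ψ a b '' L} =
      ENNReal.ofReal |s| * volume {t : ℝ | Dg ψ a⁻¹ b⁻¹ p + t * e φ ∈ L} := by
    intro L
    have h1 : {t : ℝ | p + t * e φ' ∈ Dg ψ a b '' L} =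
        (fun t => s⁻¹ * t) ⁻¹' {t : ℝ | Dg ψ a⁻¹ b⁻¹ p + t * e φ ∈ L} := by
      ext t
      simp only [mem_preimage, mem_ofPred_eq]
      have h2 : Dg ψ a b (Dg ψ a⁻¹ b⁻¹ p + ((s⁻¹ * t : ℝ) : ℂ) * e φ) = p + t * e φ' := by
        rw [dg_add, dg_inv' ha hb, dg_smul, he]
        have hs' : (s : ℂ) ≠ 0 := by exact_mod_cast hs.ne'
        push_cast
        field_simp
      constructor
      · rintro ⟨w, hw, hw'⟩
        rw [← h2] at hw'
        have h3 := congrArg (Dg ψ a⁻¹ b⁻¹) hw'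
        rw [dg_inv ha hb, dg_inv ha hb] at h3
        rw [← h3]
        exact hw
      · intro hw
        exact ⟨_, hw, h2⟩
    rw [h1, Real.volume_preimage_mul_left (inv_ne_zero hs.ne'), inv_inv]
  rw [key, key, hX]

end Pool.XR2
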