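import Pool.Agent.H92.XR2.MRK
import Pool.Agent.H1.XR2.HTN

/-!
# Project XR2, row SAR: in isotropic position the oblique symmetries are orthogonal

The law of `(⟪w, x⟫, ⟪n, x⟫)` on `K` is invariant under `(t, h) ↦ (2 (c₀ + c₁ h) - t, h)`; the
moments of order one and two give `c₀ = c₁ = 0`.
-/

set_option autoImplicit false

open MeasureTheory Set Filter Topology Metric
open scoped Real ENNReal RealInnerProductSpace

namespace Pool.XR2

open Pool.Agent.H45.XR

namespace Sar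

/-- The oblique reflection of the plane. -/
def rg (c₀ c₁ : ℝ) (y : Fin 2 → ℝ) : Fin 2 → ℝ := ![2 * (c₀ + c₁ * y 1) - y 0, y 1]

lemma rg_zero (c₀ c₁ : ℝ) (y : Fin 2 → ℝ) : rg c₀ c₁ y 0 = 2 * (c₀ + c₁ * y 1) - y 0 := rfl

lemma rg_one (c₀ c₁ : ℝ) (y : Fin 2 → ℝ) : rg c₀ c₁ y 1 = y 1 := rfl

lemma rg_rg (c₀ c₁ : ℝ) : Function.Involutive (rg c₀ c₁) := by
  intro y
  ext i
  fin_cases i
  · show rg c₀ c₁ (rg c₀ c₁ y) 0 = y 0
    rw [rg_zero, rg_zero, rg_one]
    ring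
  · show rg c₀ c₁ (rg c₀ c₁ y) 1 = y 1
    rw [rg_one, rg_one]

lemma rg_mp (c₀ c₁ : ℝ) : MeasurePreserving (rg c₀ c₁) volume volume := by
  have h1 : MeasurePreserving (fun p : ℝ × ℝ => (p.1, 2 * (c₀ + c₁ * p.1) - p.2))
      (volume : Measure (ℝ × ℝ)) volume := by
    have := (MeasurePreserving.id (volume : Measure ℝ)).skew_product
      (g := fun h y : ℝ => 2 * (c₀ + c₁ * h) - y) (μc := volume) (μd := volume)
      (by
        refine Continuous.measurable ?_
        unfold Function.uncurry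
        fun_prop)
      (Eventually.of_forall fun h => (Measure.measurePreserving_sub_left volume _).map_eq)
    exact this
  have h2 : MeasurePreserving (Prod.swap : ℝ × ℝ → ℝ × ℝ) (volume : Measure (ℝ × ℝ)) volume :=
    Measure.measurePreserving_swap
  have h3 := volume_preserving_finTwoArrow ℝ
  have h4 := (h3.symm).comp (h2.comp (h1.comp (h2.comp h3)))
  have h5 : rg c₀ c₁ = ⇑(MeasurableEquiv.finTwoArrow (α := ℝ)).symm ∘ Prod.swap ∘
      (fun p : ℝ × ℝ => (p.1, 2 * (c₀ + c₁ * p.1) - p.2)) ∘ Prod.swap ∘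
        ⇑(MeasurableEquiv.finTwoArrow (α := ℝ)) := by
    funext y
    ext i
    fin_cases i <;> rfl
  rw [h5]
  exact h4

/-- The law of the coordinates. -/
lemma law (b : OrthonormalBasis (Fin 3) ℝ E3) {K : Set E3} (hK : MeasurableSet K) {c₀ c₁ : ℝ}
    {H : Set ℝ} (hH : MeasurableSet H)
    (hnull : volume (K ∩ (fun x => (HTN.Q b x).2) ⁻¹' {y | y 1 ∉ H}) = 0)
    (hsym : ∀ y : Fin 2 → ℝ, y 1 ∈ H → xl K (b 0) (rg c₀ c₁ y 0 • b 1 + rg c₀ c₁ y 1 • b 2) =
      xl K (b 0) (y 0 • b 1 + y 1 • b 2)) :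
    ((volume.restrict K).map (fun x => (HTN.Q b x).2)).map (rg c₀ c₁) =
      (volume.restrict K).map (fun x => (HTN.Q b x).2) := by
  have hQ : Measurable (fun x => (HTN.Q b x).2) := measurable_snd.comp (HTN.Q b).measurable
  have hrg : Measurable (rg c₀ c₁) := (rg_mp c₀ c₁).measurable
  set HH : Set (Fin 2 → ℝ) := {y | y 1 ∈ H} with hHH
  have hHHm : MeasurableSet HH := (measurable_pi_apply 1) hH
  have h1 : ∀ A : Set (Fin 2 → ℝ), MeasurableSet A →
      (volume.restrict K).map (fun x => (HTN.Q b x).2) A =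
        volume (K ∩ (fun x => (HTN.Q b x).2) ⁻¹' (A ∩ HH)) := by
    intro A hA
    rw [Measure.map_apply hQ hA, Measure.restrict_apply (hQ hA), inter_comm]
    refine le_antisymm ?_ (measure_mono (inter_subset_inter_right _
      (preimage_mono inter_subset_left)))
    have h2 : K ∩ (fun x => (HTN.Q b x).2) ⁻¹' A ⊆
        (K ∩ (fun x => (HTN.Q b x).2) ⁻¹' (A ∩ HH)) ∪
          (K ∩ (fun x => (HTN.Q b x).2) ⁻¹' {y | y 1 ∉ H}) := by
      rintro x ⟨hx, hxA⟩
      by_cases h3 : (HTN.Q b x).2 1 ∈ H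
      · exact Or.inl ⟨hx, hxA, h3⟩
      · exact Or.inr ⟨hx, h3⟩
    refine (measure_mono h2).trans ((measure_union_le _ _).trans ?_)
    rw [hnull, add_zero]
  ext A hA
  rw [Measure.map_apply hrg hA, h1 _ (hrg hA), h1 _ hA, HTN.vol_slice b hK (hA.inter hHHm),
    HTN.vol_slice b hK ((hrg hA).inter hHHm)]
  have h2 : ∀ y : Fin 2 → ℝ, (rg c₀ c₁ ⁻¹' A ∩ HH).indicator
      (fun y => xl K (b 0) (y 0 • b 1 + y 1 • b 2)) y =
      (A ∩ HH).indicator (fun y => xl K (b 0) (y 0 • b 1 + y 1 • b 2)) (rg c₀ c₁ y) := by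
    intro y
    by_cases hy : y ∈ rg c₀ c₁ ⁻¹' A ∩ HH
    · have hy2 : rg c₀ c₁ y ∈ A ∩ HH := ⟨hy.1, hy.2⟩
      rw [indicator_of_mem hy, indicator_of_mem hy2]
      exact (hsym y hy.2).symm
    · have hy2 : rg c₀ c₁ y ∉ A ∩ HH := fun h => hy ⟨h.1, h.2⟩
      rw [indicator_of_notMem hy, indicator_of_notMem hy2]
  rw [lintegral_congr h2]
  exact (rg_mp c₀ c₁).lintegral_comp_emb
    (MeasurableEquiv.ofInvolutive (rg c₀ c₁) (rg_rg c₀ c₁) hrg).measurableEmbedding _

/-- The moments. -/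
lemma law_int (b : OrthonormalBasis (Fin 3) ℝ E3) {K : Set E3} {c₀ c₁ : ℝ}
    (h : ((volume.restrict K).map (fun x => (HTN.Q b x).2)).map (rg c₀ c₁) =
      (volume.restrict K).map (fun x => (HTN.Q b x).2)) {F : (Fin 2 → ℝ) → ℝ}
    (hF : Continuous F) :
    ∫ x in K, F (rg c₀ c₁ (HTN.Q b x).2) = ∫ x in K, F (HTN.Q b x).2 := by
  have hQ : Measurable (fun x => (HTN.Q b x).2) := measurable_snd.comp (HTN.Q b).measurable
  have hrg : Measurable (rg c₀ c₁) := (rg_mp c₀ c₁).measurable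
  rw [← integral_map (φ := fun x => (HTN.Q b x).2) hQ.aemeasurable
    hF.measurable.aestronglyMeasurable,
    ← integral_map (φ := fun x => (HTN.Q b x).2) (f := fun y => F (rg c₀ c₁ y)) hQ.aemeasurable
    (hF.measurable.comp hrg).aestronglyMeasurable,
    ← integral_map (φ := rg c₀ c₁) hrg.aemeasurable hF.measurable.aestronglyMeasurable, h]

end Sar

open Sar in
/-- Row SAR. -/
theorem t_sar : SARStmt := by
  intro K b φ hK hiso hsym
  obtain ⟨hc, hk, hi⟩ := hK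
  obtain ⟨hmean, c, hc0, hcov⟩ := hiso
  obtain ⟨c₀, c₁, hs⟩ := hsym
  have hKm : MeasurableSet K := hk.isClosed.measurableSet
  set u := dirE b φ with hu
  set w := dirE b (φ + π / 2) with hw
  set n := b 2 with hn
  have nu : ‖u‖ = 1 := norm_dirE b φ
  have nw : ‖w‖ = 1 := norm_dirE b _
  have nn : ‖n‖ = 1 := b.orthonormal.1 2
  have hu0 : u ≠ 0 := dirE_ne b φ
  have ib : ∀ i j : Fin 3, ⟪b i, b j⟫ = if i = j then (1 : ℝ) else 0 :=
    orthonormal_iff_ite.mp b.orthonormal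
  have huw : ⟪u, w⟫ = 0 := by
    rw [hu, hw, dirE_eq, dirE_eq, Real.cos_add_pi_div_two, Real.sin_add_pi_div_two]
    simp only [inner_add_left, inner_add_right, inner_smul_left, inner_smul_right, ib]
    simp
    ring
  have hun : ⟪u, n⟫ = 0 := by
    rw [hu, hn, dirE_eq]
    simp only [inner_add_left, inner_smul_left, ib]
    simp
  have hwn : ⟪w, n⟫ = 0 := by
    rw [hw, hn, dirE_eq]
    simp only [inner_add_left, inner_smul_left, ib]
    simp
  obtain ⟨B, hB0, hB1, hB2⟩ := onb_of nu nw nn huw hun hwn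
  have hint : ∀ {f : E3 → ℝ}, Continuous f → IntegrableOn f K := fun hf =>
    hf.continuousOn.integrableOn_compact hk
  -- moments
  have m1 : ∀ ξ : E3, ∫ x in K, ⟪ξ, x⟫ = 0 := by
    intro ξ
    have h1 : Integrable (fun x : E3 => x) (volume.restrict K) :=
      continuous_id.continuousOn.integrableOn_compact hk
    rw [integral_inner h1, hmean, inner_zero_right]
  have m2 : ∫ x in K, ⟪w, x⟫ * ⟪n, x⟫ = 0 := by
    have h1 := hcov (w + n)
    have h2 := hcov w
    have h3 := hcov n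
    have e1 : ∀ x : E3, ⟪w + n, x⟫ ^ 2 = (⟪w, x⟫ ^ 2 + ⟪n, x⟫ ^ 2) + 2 * (⟪w, x⟫ * ⟪n, x⟫) := by
      intro x
      rw [inner_add_left]
      ring
    have e2 : ‖w + n‖ ^ 2 = 2 := by
      rw [← real_inner_self_eq_norm_sq, inner_add_left, inner_add_right, inner_add_right,
        real_inner_self_eq_norm_sq, real_inner_self_eq_norm_sq, nw, nn, hwn,
        real_inner_comm, hwn]
      norm_num
    simp only [e1] at h1
    have i1 : Integrable (fun x : E3 => ⟪w, x⟫ ^ 2) (volume.restrict K) := hint (by fun_prop)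
    have i2 : Integrable (fun x : E3 => ⟪n, x⟫ ^ 2) (volume.restrict K) := hint (by fun_prop)
    have i3 : Integrable (fun x : E3 => 2 * (⟪w, x⟫ * ⟪n, x⟫)) (volume.restrict K) :=
      hint (by fun_prop)
    have i12 : Integrable (fun x : E3 => ⟪w, x⟫ ^ 2 + ⟪n, x⟫ ^ 2) (volume.restrict K) := i1.add i2
    rw [integral_add i12 i3, integral_add i1 i2, integral_const_mul, h2, h3, e2, nw, nn] at h1
    linarith
  -- the exceptional heights
  have hnull : volume (K ∩ (fun x => (HTN.Q B x).2) ⁻¹' {y | y 1 ∉ Hts (coordE b ⁻¹' K)}) = 0 := by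
    refine measure_mono_null ?_ (hc.addHaar_frontier volume)
    rintro x ⟨hx, hx2⟩
    rw [hk.isClosed.frontier_eq]
    refine ⟨hx, fun hxi => hx2 ?_⟩
    show (HTN.Q B x).2 1 ∈ Hts (coordE b ⁻¹' K)
    rw [HTN.Q_apply]
    show ⟪B 2, x⟫ ∈ Hts (coordE b ⁻¹' K)
    rw [hts_iff b φ]
    refine ⟨⟪w, x⟫, ⟪u, x⟫, ?_⟩
    have h1 := B.sum_repr' x
    rw [Fin.sum_univ_three, hB0, hB1, hB2] at h1
    have h2 : pln b φ ⟪w, x⟫ ⟪B 2, x⟫ + ⟪u, x⟫ • dirE b φ = x := by
      unfold pln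
      rw [hB2]
      rw [← hu, ← hw, ← hn]
      conv_rhs => rw [← h1]
      abel
    rw [h2]
    exact hxi
  have hHo : MeasurableSet (Hts (coordE b ⁻¹' K)) := by
    have h1 : Hts (coordE b ⁻¹' K) = Prod.snd '' interior (coordE b ⁻¹' K) := by
      ext h
      constructor
      · rintro ⟨z, hz⟩
        exact ⟨(z, h), hz, rfl⟩
      · rintro ⟨⟨z, h'⟩, hz, rfl⟩
        exact ⟨z, hz⟩
    rw [h1]
    exact (isOpenMap_snd _ isOpen_interior).measurableSet
  have hxl : ∀ x y : E3, len K u x = len K u y → xl K u x = xl K u y := by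
    intro x y h
    have h1 := slc_fin hk hu0 x
    have h2 := slc_fin hk hu0 y
    exact (ENNReal.toReal_eq_toReal_iff' h1 h2).1 h
  have hsym : ∀ y : Fin 2 → ℝ, y 1 ∈ Hts (coordE b ⁻¹' K) →
      xl K (B 0) (rg c₀ c₁ y 0 • B 1 + rg c₀ c₁ y 1 • B 2) =
      xl K (B 0) (y 0 • B 1 + y 1 • B 2) := by
    intro y hy
    rw [hB0, hB1, hB2]
    refine hxl _ _ ?_
    have h1 := hs (y 1) hy (y 0 - (c₀ + c₁ * y 1))
    rw [xr_sec, xr_sec] at h1
    have e1 : c₀ + c₁ * y 1 + (y 0 - (c₀ + c₁ * y 1)) = y 0 := by ring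
    have e2 : c₀ + c₁ * y 1 - (y 0 - (c₀ + c₁ * y 1)) = rg c₀ c₁ y 0 := by
      rw [rg_zero]
      ring
    rw [e1, e2] at h1
    exact h1.symm
  have hlaw := law B hKm hHo hnull hsym
  have hvol : 0 < (volume.restrict K).real univ := by
    rw [Measure.real, Measure.restrict_apply_univ]
    exact ENNReal.toReal_pos ((isOpen_interior.measure_pos volume hi).trans_le
      (measure_mono interior_subset)).ne' hk.measure_ne_top
  -- first moment
  have hQ0 : ∀ x : E3, (HTN.Q B x).2 0 = ⟪w, x⟫ := by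
    intro x
    rw [HTN.Q_apply]
    show ⟪B 1, x⟫ = _
    rw [hB1]
  have hQ1 : ∀ x : E3, (HTN.Q B x).2 1 = ⟪n, x⟫ := by
    intro x
    rw [HTN.Q_apply]
    show ⟪B 2, x⟫ = _
    rw [hB2]
  have hc₀ : c₀ = 0 := by
    have h1 := law_int B hlaw (F := fun y => y 0) (by fun_prop)
    simp only [rg_zero, hQ0, hQ1] at h1
    rw [m1] at h1
    have e1 : ∀ x : E3, 2 * (c₀ + c₁ * ⟪n, x⟫) - ⟪w, x⟫ =
        2 * c₀ + ((2 * c₁) * ⟪n, x⟫ - ⟪w, x⟫) := by
      intro x
      ring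
    simp only [e1] at h1
    have i1 : Integrable (fun x : E3 => (2 * c₁) * ⟪n, x⟫) (volume.restrict K) :=
      hint (by fun_prop)
    have i2 : Integrable (fun x : E3 => ⟪w, x⟫) (volume.restrict K) := hint (by fun_prop)
    have i12 : Integrable (fun x : E3 => (2 * c₁) * ⟪n, x⟫ - ⟪w, x⟫) (volume.restrict K) :=
      i1.sub i2
    have i0 : Integrable (fun _ : E3 => 2 * c₀) (volume.restrict K) := hint continuous_const
    have e3 : ∫ x in K, (2 * c₁) * ⟪n, x⟫ = 0 := by rw [integral_const_mul, m1, mul_zero]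
    have e4 : ∫ _ in K, (2 * c₀) = (volume.restrict K).real univ * (2 * c₀) := by
      rw [integral_const, smul_eq_mul]
    rw [integral_add i0 i12, integral_sub i1 i2, e3, e4, m1, sub_zero, add_zero] at h1
    rcases mul_eq_zero.1 h1 with h2 | h2
    · exact absurd h2 hvol.ne'
    · linarith
  have hc₁ : c₁ = 0 := by
    have h1 := law_int B hlaw (F := fun y => y 0 * y 1) (by fun_prop)
    simp only [rg_zero, rg_one, hQ0, hQ1] at h1
    rw [m2] at h1
    have e1 : ∀ x : E3, (2 * (c₀ + c₁ * ⟪n, x⟫) - ⟪w, x⟫) * ⟪n, x⟫ =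
        (2 * c₁) * ⟪n, x⟫ ^ 2 - ⟪w, x⟫ * ⟪n, x⟫ := by
      intro x
      rw [hc₀]
      ring
    simp only [e1] at h1
    have i1 : Integrable (fun x : E3 => (2 * c₁) * ⟪n, x⟫ ^ 2) (volume.restrict K) :=
      hint (by fun_prop)
    have i2 : Integrable (fun x : E3 => ⟪w, x⟫ * ⟪n, x⟫) (volume.restrict K) :=
      hint (by fun_prop)
    rw [integral_sub i1 i2, integral_const_mul, hcov, m2, nn] at h1
    have h2 : 2 * c₁ * (c * 1 ^ 2) = 0 := by linarith
    rcases mul_eq_zero.1 h2 with h3 | h3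
    · linarith
    · exfalso
      rw [one_pow, mul_one] at h3
      exact hc0.ne' h3
  -- the symmetry
  obtain ⟨x₀, hx₀⟩ := hi
  intro x
  refine hxl _ _ ?_
  have hww : ⟪w, w⟫ = 1 := by rw [real_inner_self_eq_norm_sq, nw, one_pow]
  have hnw : ⟪n, w⟫ = 0 := by rw [real_inner_comm]; exact hwn
  have hσw : ∀ x : E3, ⟪w, x - (2 * ⟪w, x⟫) • w⟫ = -⟪w, x⟫ := by
    intro x
    rw [inner_sub_right, inner_smul_right, hww]
    ring
  have hdec : ∀ x : E3, len K u x = len K u (pln b φ ⟪w, x⟫ ⟪n, x⟫) := by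
    intro x
    have h1 := B.sum_repr' x
    rw [Fin.sum_univ_three, hB0, hB1, hB2] at h1
    have h2 : pln b φ ⟪w, x⟫ ⟪n, x⟫ + ⟪u, x⟫ • u = x := by
      unfold pln
      rw [← hw, ← hn]
      conv_rhs => rw [← h1]
      abel
    conv_lhs => rw [← h2]
    rw [len_add]
  have hlen : ∀ x : E3, (∃ s : ℝ, x + s • u ∈ interior K) →
      len K u (x - (2 * ⟪w, x⟫) • w) = len K u x := by
    rintro x ⟨s, hsx⟩
    have hh : ⟪n, x⟫ ∈ Hts (coordE b ⁻¹' K) := by
      rw [hts_iff b φ]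
      have h1 := B.sum_repr' x
      rw [Fin.sum_univ_three, hB0, hB1, hB2] at h1
      refine ⟨⟪w, x⟫, ⟪u, x⟫ + s, ?_⟩
      have h2 : pln b φ ⟪w, x⟫ ⟪n, x⟫ + (⟪u, x⟫ + s) • dirE b φ = x + s • u := by
        unfold pln
        rw [← hw, ← hn, ← hu]
        conv_rhs => rw [← h1]
        rw [add_smul]
        abel
      rw [h2]
      exact hsx
    have h1 := hs _ hh ⟪w, x⟫
    rw [hc₀, hc₁, xr_sec, xr_sec] at h1
    simp only [zero_mul, add_zero, zero_add, zero_sub] at h1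
    rw [hdec x, hdec (x - (2 * ⟪w, x⟫) • w), hσw]
    have h2 : ⟪n, x - (2 * ⟪w, x⟫) • w⟫ = ⟪n, x⟫ := by
      rw [inner_sub_right, inner_smul_right, hnw, mul_zero, sub_zero]
    rw [h2]
    exact h1.symm
  refine sym_ext hc hk hu0 (fun x => x) (fun x => x - (2 * ⟪w, x⟫) • w) (fun a b x y _ => rfl)
    continuous_id (fun a b x y _ => ?_) (fun x => ?_)
    (U := {x | ∃ s : ℝ, x + s • u ∈ interior K}) (x₀ := x₀) ⟨0, by simpa using hx₀⟩ ?_ ?_ ?_ x
  · simp only [inner_add_right, inner_smul_right]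
    module
  · rw [hσw]
    module
  · rintro x ⟨s, hsx⟩
    exact ⟨s, interior_subset (s := K) hsx⟩
  · rintro x ⟨s, hsx⟩ l hl0 hl1
    have h0 : x₀ + (0 : ℝ) • u ∈ interior K := by simpa using hx₀
    exact ⟨_, int_seg hc h0 hsx hl0.le hl1⟩
  · rintro x ⟨s, hsx⟩
    refine ⟨?_, hlen x ⟨s, hsx⟩⟩
    -- the reflected point is over an interior point
    have h1 : Tendsto (fun η : ℝ => x + (2 * ⟪w, x⟫ * η) • w + s • u) (𝓝[>] 0) (𝓝 (x + s • u)) := by
      have h2 : Continuous (fun η : ℝ => x + (2 * ⟪w, x⟫ * η) • w + s • u) := by fun_prop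
      have h3 := h2.tendsto 0
      simp only [mul_zero, zero_smul, add_zero] at h3
      exact h3.mono_left nhdsWithin_le_nhds
    obtain ⟨η, hη, hη0⟩ := ((h1.eventually (isOpen_interior.mem_nhds hsx)).and
      self_mem_nhdsWithin).exists
    have hη0' : (0 : ℝ) < η := hη0
    have h2 := hlen _ ⟨s, hη⟩
    have h3 : 0 < len K u (x + (2 * ⟪w, x⟫ * η) • w) := len_pos hk hu0 hη
    rw [← h2] at h3
    have h4 : (slc K u (x + (2 * ⟪w, x⟫ * η) • w -
        (2 * ⟪w, x + (2 * ⟪w, x⟫ * η) • w⟫) • w)).Nonempty := by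
      by_contra hcon
      rw [len_empty hcon] at h3
      exact lt_irrefl _ h3
    obtain ⟨s', hs'⟩ := h4
    have h5 := int_seg hc hsx hs' (l := 1 / (1 + η)) (by positivity) (by
      rw [div_lt_one (by positivity)]
      linarith)
    have h6 : (1 - 1 / (1 + η)) • x + (1 / (1 + η)) • (x + (2 * ⟪w, x⟫ * η) • w -
        (2 * ⟪w, x + (2 * ⟪w, x⟫ * η) • w⟫) • w) = x - (2 * ⟪w, x⟫) • w := by
      rw [inner_add_right, inner_smul_right, hww]
      have hne : (1 + η) ≠ 0 := by positivity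
      have h7 : (1 - 1 / (1 + η)) • x + (1 / (1 + η)) • (x + (2 * ⟪w, x⟫ * η) • w -
        (2 * (⟪w, x⟫ + 2 * ⟪w, x⟫ * η * 1)) • w) =
          x - ((1 / (1 + η)) * (1 + η) * (2 * ⟪w, x⟫)) • w := by
        module
      rw [h7, one_div, inv_mul_cancel₀ hne, one_mul]
    rw [h6] at h5
    exact ⟨_, h5⟩

end Pool.XR2
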