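import Pool.Agent.H52.XR2.S2
import Pool.Agent.H63.XR2.MRG

/-!
# Project XR2, row MRK: constant times give symmetries

`2 / X` with the X-ray `X` in the direction `u` is a density on the projection of `K` whose
marginals in a dense set of directions are uniform; the row MRG gives the symmetries of `2 / X`
on the interior of the projection, and `X` is continuous along segments.
-/

set_option autoImplicit false
set_option linter.unusedSectionVars false
set_option linter.unusedSimpArgs false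

open MeasureTheory Set Filter Topology Metric
open scoped Real ENNReal RealInnerProductSpace

namespace Pool.XR2

open Pool.Agent.H45.XR

namespace Mrk

section gen

variable {E : Type*} [NormedAddCommGroup E] [NormedSpace ℝ E]

/-- The slice of `S` over `t`. -/
def sl (S : Set (E × ℝ)) (t : E) : Set ℝ := {y | (t, y) ∈ S}

/-- The upper end of the slice. -/
noncomputable def gu (S : Set (E × ℝ)) (t : E) : ℝ := sSup (sl S t)

/-- The lower end of the slice. -/
noncomputable def gl (S : Set (E × ℝ)) (t : E) : ℝ := sInf (sl S t)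

/-- The projection. -/
def lv (S : Set (E × ℝ)) : Set E := {t | (sl S t).Nonempty}

/-- The length of the slice. -/
noncomputable def gq (S : Set (E × ℝ)) (t : E) : ℝ := (volume (sl S t)).toReal

lemma sl_compact {S : Set (E × ℝ)} (hS : IsCompact S) (t : E) : IsCompact (sl S t) := by
  have h1 : sl S t = Prod.snd '' (S ∩ Prod.fst ⁻¹' {t}) := by
    ext y
    constructor
    · intro h; exact ⟨(t, y), ⟨h, rfl⟩, rfl⟩
    · rintro ⟨⟨a, b⟩, ⟨h, h'⟩, rfl⟩
      have : a = t := h'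
      subst this
      exact h
  rw [h1]
  exact (hS.inter_right (isClosed_singleton.preimage continuous_fst)).image continuous_snd

lemma gu_mem {S : Set (E × ℝ)} (hS : IsCompact S) {t : E} (ht : t ∈ lv S) : (t, gu S t) ∈ S :=
  (sl_compact hS t).sSup_mem ht

lemma gl_mem {S : Set (E × ℝ)} (hS : IsCompact S) {t : E} (ht : t ∈ lv S) : (t, gl S t) ∈ S :=
  (sl_compact hS t).sInf_mem ht

lemma le_gu {S : Set (E × ℝ)} (hS : IsCompact S) {t : E} {y : ℝ} (h : (t, y) ∈ S) : y ≤ gu S t :=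
  le_csSup (sl_compact hS t).bddAbove h

lemma gl_le {S : Set (E × ℝ)} (hS : IsCompact S) {t : E} {y : ℝ} (h : (t, y) ∈ S) : gl S t ≤ y :=
  csInf_le (sl_compact hS t).bddBelow h

lemma gl_le_gu {S : Set (E × ℝ)} (hS : IsCompact S) {t : E} (ht : t ∈ lv S) :
    gl S t ≤ gu S t := gl_le hS (gu_mem hS ht)

lemma sl_eq {S : Set (E × ℝ)} (hS : IsCompact S) (hc : Convex ℝ S) {t : E} (ht : t ∈ lv S) :
    sl S t = Icc (gl S t) (gu S t) := by
  refine Subset.antisymm (fun y hy => ⟨gl_le hS hy, le_gu hS hy⟩) ?_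
  have h1 : Convex ℝ (sl S t) := by
    intro y hy y' hy' a b ha hb hab
    have h2 := hc hy hy' ha hb hab
    have h3 : a • (t, y) + b • (t, y') = (t, a • y + b • y') := by
      ext
      · simp only [Prod.smul_mk, Prod.mk_add_mk]
        rw [← add_smul, hab, one_smul]
      · rfl
    rw [h3] at h2
    exact h2
  exact h1.ordConnected.out (gl_mem hS ht) (gu_mem hS ht)

lemma lv_convex {S : Set (E × ℝ)} (hc : Convex ℝ S) : Convex ℝ (lv S) := by
  intro t ht t' ht' a b ha hb hab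
  obtain ⟨y, hy⟩ := ht
  obtain ⟨y', hy'⟩ := ht'
  exact ⟨a • y + b • y', hc hy hy' ha hb hab⟩

lemma lv_eq (S : Set (E × ℝ)) : lv S = Prod.fst '' S := by
  ext t
  constructor
  · rintro ⟨y, hy⟩
    exact ⟨(t, y), hy, rfl⟩
  · rintro ⟨⟨a, b⟩, h, rfl⟩
    exact ⟨b, h⟩

lemma lv_compact {S : Set (E × ℝ)} (hS : IsCompact S) : IsCompact (lv S) := by
  rw [lv_eq]
  exact hS.image continuous_fst

lemma gq_eq {S : Set (E × ℝ)} (hS : IsCompact S) (hc : Convex ℝ S) {t : E}
    (ht : t ∈ lv S) : gq S t = gu S t - gl S t := by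
  unfold gq
  rw [sl_eq hS hc ht, Real.volume_Icc, ENNReal.toReal_ofReal]
  linarith [gl_le_gu hS ht]

lemma gq_zero {S : Set (E × ℝ)} {t : E} (ht : t ∉ lv S) : gq S t = 0 := by
  have h1 : sl S t = ∅ := not_nonempty_iff_eq_empty.1 ht
  unfold gq
  rw [h1, measure_empty, ENNReal.toReal_zero]

lemma gq_nonneg (S : Set (E × ℝ)) (t : E) : 0 ≤ gq S t := ENNReal.toReal_nonneg

lemma gq_concave {S : Set (E × ℝ)} (hS : IsCompact S) (hc : Convex ℝ S) :
    ConcaveOn ℝ (lv S) (gq S) := by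
  refine ⟨lv_convex hc, fun t ht t' ht' a b ha hb hab => ?_⟩
  have h1 := le_gu hS (hc (gu_mem hS ht) (gu_mem hS ht') ha hb hab)
  have h2 := gl_le hS (hc (gl_mem hS ht) (gl_mem hS ht') ha hb hab)
  rw [gq_eq hS hc ht, gq_eq hS hc ht', gq_eq hS hc (lv_convex hc ht ht' ha hb hab)]
  simp only [Prod.snd_add, Prod.smul_snd, Prod.fst_add, Prod.smul_fst, smul_eq_mul] at h1 h2 ⊢
  linarith

lemma gq_lim {S : Set (E × ℝ)} (hS : IsCompact S) (hc : Convex ℝ S) {t t₀ : E} (ht : t ∈ lv S)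
    (ht₀ : t₀ ∈ lv S) :
    Tendsto (fun l : ℝ => gq S ((1 - l) • t + l • t₀)) (𝓝[>] 0) (𝓝 (gq S t)) := by
  have hpt : Tendsto (fun l : ℝ => (1 - l) • t + l • t₀) (𝓝[>] 0) (𝓝 t) := by
    have h1 : Continuous (fun l : ℝ => (1 - l) • t + l • t₀) := by fun_prop
    have h2 := h1.tendsto 0
    simp only [sub_zero, one_smul, zero_smul, add_zero] at h2
    exact h2.mono_left nhdsWithin_le_nhds
  have hl : ∀ᶠ l : ℝ in 𝓝[>] 0, 0 < l ∧ l < 1 := by
    have h1 : ∀ᶠ l : ℝ in 𝓝[>] 0, l < 1 := nhdsWithin_le_nhds (Iio_mem_nhds one_pos)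
    filter_upwards [self_mem_nhdsWithin, h1] with l h2 h3
    exact ⟨h2, h3⟩
  have hmem : ∀ᶠ l : ℝ in 𝓝[>] 0, (1 - l) • t + l • t₀ ∈ lv S := by
    filter_upwards [hl] with l h
    exact lv_convex hc ht ht₀ (by linarith [h.2]) h.1.le (by ring)
  rw [tendsto_order]
  constructor
  · intro a ha
    have h1 : Tendsto (fun l : ℝ => (1 - l) * gq S t + l * gq S t₀) (𝓝[>] 0) (𝓝 (gq S t)) := by
      have h2 : Continuous (fun l : ℝ => (1 - l) * gq S t + l * gq S t₀) := by fun_prop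
      have h3 := h2.tendsto 0
      simp only [sub_zero, one_mul, zero_mul, add_zero] at h3
      exact h3.mono_left nhdsWithin_le_nhds
    filter_upwards [hl, h1 (Ioi_mem_nhds ha)] with l h h4
    have h1l : (0 : ℝ) ≤ 1 - l := by linarith [h.2]
    have h5 := (gq_concave hS hc).2 ht ht₀ h1l h.1.le (by ring)
    simp only [smul_eq_mul] at h5
    have h6 : a < (1 - l) * gq S t + l * gq S t₀ := h4
    linarith
  · intro b hb
    set ε : ℝ := (b - gq S t) / 2 with hε
    have hε0 : 0 < ε := by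
      rw [hε]
      linarith
    have hcl1 : IsClosed (Prod.fst '' (S ∩ {p : E × ℝ | gu S t + ε ≤ p.2})) :=
      ((hS.inter_right (isClosed_le continuous_const continuous_snd)).image
        continuous_fst).isClosed
    have hcl2 : IsClosed (Prod.fst '' (S ∩ {p : E × ℝ | p.2 ≤ gl S t - ε})) :=
      ((hS.inter_right (isClosed_le continuous_snd continuous_const)).image
        continuous_fst).isClosed
    have hn1 : t ∉ Prod.fst '' (S ∩ {p : E × ℝ | gu S t + ε ≤ p.2}) := by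
      rintro ⟨⟨a, y⟩, ⟨h1, h2⟩, rfl⟩
      have h3 := le_gu hS h1
      have h4 : gu S a + ε ≤ y := h2
      linarith
    have hn2 : t ∉ Prod.fst '' (S ∩ {p : E × ℝ | p.2 ≤ gl S t - ε}) := by
      rintro ⟨⟨a, y⟩, ⟨h1, h2⟩, rfl⟩
      have h3 := gl_le hS h1
      have h4 : y ≤ gl S a - ε := h2
      linarith
    filter_upwards [hmem, hpt (hcl1.isOpen_compl.mem_nhds hn1),
      hpt (hcl2.isOpen_compl.mem_nhds hn2)] with l h1 h2 h3
    rw [gq_eq hS hc h1]
    have h4 : gu S ((1 - l) • t + l • t₀) < gu S t + ε := by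
      by_contra hcon
      exact h2 ⟨_, ⟨gu_mem hS h1, not_lt.1 hcon⟩, rfl⟩
    have h5 : gl S t - ε < gl S ((1 - l) • t + l • t₀) := by
      by_contra hcon
      exact h3 ⟨_, ⟨gl_mem hS h1, not_lt.1 hcon⟩, rfl⟩
    have h6 := gq_eq hS hc ht
    linarith

/-- Interior points of the projection. -/
lemma int_lv {S : Set (E × ℝ)} (hc : Convex ℝ S) (hne : (interior S).Nonempty) {t : E}
    (ht : t ∈ interior (lv S)) : ∃ y, (t, y) ∈ interior S := by
  obtain ⟨⟨t₀, y₀⟩, h0⟩ := hne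
  have h1 : Tendsto (fun ε : ℝ => t + ε • (t - t₀)) (𝓝[>] 0) (𝓝 t) := by
    have h2 : Continuous (fun ε : ℝ => t + ε • (t - t₀)) := by fun_prop
    have h3 := h2.tendsto 0
    simp only [zero_smul, add_zero] at h3
    exact h3.mono_left nhdsWithin_le_nhds
  have h2 : ∀ᶠ ε : ℝ in 𝓝[>] 0, t + ε • (t - t₀) ∈ lv S ∧ 0 < ε := by
    filter_upwards [h1 (mem_interior_iff_mem_nhds.1 ht), self_mem_nhdsWithin] with ε h3 h4
    exact ⟨h3, h4⟩
  obtain ⟨ε, ⟨y', hy'⟩, hε⟩ := h2.exists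
  refine ⟨(1 / (1 + ε)) * y' + (ε / (1 + ε)) * y₀, ?_⟩
  have hp : (0 : ℝ) < 1 + ε := by linarith
  have h3 := hc.combo_self_interior_mem_interior (x := (t + ε • (t - t₀), y')) (y := (t₀, y₀))
    hy' h0 (a := 1 / (1 + ε)) (b := ε / (1 + ε)) (by positivity) (by positivity)
    (by field_simp)
  have h4 : (1 / (1 + ε)) • (t + ε • (t - t₀), y') + (ε / (1 + ε)) • (t₀, y₀) =
      (t, (1 / (1 + ε)) * y' + (ε / (1 + ε)) * y₀) := by
    ext
    · simp only [Prod.smul_mk, Prod.mk_add_mk]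
      have h5 : t + ε • (t - t₀) = (1 + ε) • t - ε • t₀ := by
        rw [smul_sub, add_smul, one_smul]
        abel
      rw [h5, smul_sub, smul_smul, smul_smul]
      have h6 : 1 / (1 + ε) * (1 + ε) = 1 := by field_simp
      have h7 : 1 / (1 + ε) * ε = ε / (1 + ε) := by ring
      rw [h6, h7, one_smul]
      abel
    · simp only [Prod.smul_mk, Prod.mk_add_mk, smul_eq_mul]
  rw [h4] at h3
  exact h3

lemma lv_int {S : Set (E × ℝ)} {t : E} {y : ℝ} (h : (t, y) ∈ interior S) :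
    t ∈ interior (lv S) := by
  have h1 : IsOpen (Prod.fst '' interior S) := isOpenMap_fst _ isOpen_interior
  refine interior_maximal ?_ h1 ⟨_, h, rfl⟩
  rw [lv_eq]
  exact image_mono interior_subset

lemma gq_pos {S : Set (E × ℝ)} (hS : IsCompact S) (hc : Convex ℝ S)
    (hne : (interior S).Nonempty) {t : E} (ht : t ∈ interior (lv S)) : 0 < gq S t := by
  obtain ⟨y, hy⟩ := int_lv hc hne ht
  unfold gq
  refine ENNReal.toReal_pos ?_ ((sl_compact hS t).measure_ne_top)
  have h1 : IsOpen {y' : ℝ | (t, y') ∈ interior S} :=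
    isOpen_interior.preimage (by fun_prop)
  have h2 := h1.measure_pos volume ⟨y, hy⟩
  have h3 : {y' : ℝ | (t, y') ∈ interior S} ⊆ sl S t := by
    intro y' hy'
    have h4 : (t, y') ∈ interior S := hy'
    have h5 : (t, y') ∈ S := interior_subset h4
    exact h5
  exact (lt_of_lt_of_le h2 (measure_mono h3)).ne'

end gen

/-! ### the density -/

open Classical in
/-- The density `2 / X` on the interior of the projection. -/
noncomputable def dn (S : Set (ℂ × ℝ)) (z : ℂ) : ℝ := if z ∈ interior (lv S) then 2 / gq S z else 0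

/-- The body in the coordinates `(z, s)`. -/
lemma rf_comb (ψ c₀ c₁ l : ℝ) (z z₀ : ℂ) :
    Mrg.rf ψ c₀ c₁ ((1 - l) • z + l • z₀) =
      (1 - l) • Mrg.rf ψ c₀ c₁ z + l • Mrg.rf ψ c₀ c₁ z₀ := by
  unfold Mrg.rf fr tc yc
  simp only [Complex.real_smul, Complex.add_re, Complex.add_im, Complex.mul_re, Complex.mul_im,
    Complex.ofReal_re, Complex.ofReal_im]
  push_cast
  ring

/-- Symmetry of the density gives symmetry of the X-ray. -/
lemma gq_rf {S : Set (ℂ × ℝ)} (hS : IsCompact S) (hc : Convex ℝ S) (hne : (interior S).Nonempty)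
    {ψ c₀ c₁ : ℝ} (h : ∀ z, dn S (Mrg.rf ψ c₀ c₁ z) = dn S z) (z : ℂ) :
    gq S (Mrg.rf ψ c₀ c₁ z) = gq S z := by
  set R := Mrg.rf ψ c₀ c₁ with hR
  have hRR : ∀ z, R (R z) = z := Mrg.rf_rf ψ c₀ c₁
  have hRc : Continuous R := Mrg.continuous_rf ψ c₀ c₁
  have hpos : ∀ z, z ∈ interior (lv S) → 0 < dn S z := by
    intro z hz
    unfold dn
    rw [if_pos hz]
    exact div_pos two_pos (gq_pos hS hc hne hz)
  have h1 : ∀ z ∈ interior (lv S), R z ∈ interior (lv S) := by
    intro z hz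
    by_contra hcon
    have h2 := h z
    have h3 := hpos z hz
    unfold dn at h2
    unfold dn at h3
    rw [if_neg hcon] at h2
    rw [← h2] at h3
    exact lt_irrefl _ h3
  have h2 : ∀ z ∈ interior (lv S), gq S (R z) = gq S z := by
    intro z hz
    have h3 := h z
    unfold dn at h3
    rw [if_pos hz, if_pos (h1 z hz)] at h3
    have h4 := gq_pos hS hc hne hz
    have h5 := gq_pos hS hc hne (h1 z hz)
    rw [div_eq_div_iff h5.ne' h4.ne'] at h3
    linarith
  obtain ⟨⟨z₀, y₀⟩, h0⟩ := hne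
  have hz₀ : z₀ ∈ interior (lv S) := lv_int h0
  have hRz₀ : R z₀ ∈ interior (lv S) := h1 z₀ hz₀
  have hl : ∀ᶠ l : ℝ in 𝓝[>] 0, 0 < l ∧ l < 1 := by
    have h1 : ∀ᶠ l : ℝ in 𝓝[>] 0, l < 1 := nhdsWithin_le_nhds (Iio_mem_nhds one_pos)
    filter_upwards [self_mem_nhdsWithin, h1] with l h2 h3
    exact ⟨h2, h3⟩
  have hcomb : ∀ z ∈ lv S, ∀ l : ℝ, 0 < l → l < 1 → (1 - l) • z + l • z₀ ∈ interior (lv S) := by
    intro z hz l hl0 hl1
    exact (lv_convex hc).combo_self_interior_mem_interior hz hz₀ (by linarith) hl0 (by ring)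
  have hmem : ∀ z ∈ lv S, R z ∈ lv S := by
    intro z hz
    have h3 : Tendsto (fun l : ℝ => (1 - l) • R z + l • R z₀) (𝓝[>] 0) (𝓝 (R z)) := by
      have h1 : Continuous (fun l : ℝ => (1 - l) • R z + l • R z₀) := by fun_prop
      have h2 := h1.tendsto 0
      simp only [sub_zero, one_smul, zero_smul, add_zero] at h2
      exact h2.mono_left nhdsWithin_le_nhds
    refine (lv_compact hS).isClosed.mem_of_tendsto h3 ?_
    filter_upwards [hl] with l h4
    have h5 := h1 _ (hcomb z hz l h4.1 h4.2)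
    rw [hR, rf_comb] at h5
    exact interior_subset h5
  by_cases hz : z ∈ lv S
  · have h3 := gq_lim hS hc hz (interior_subset hz₀)
    have h4 := gq_lim hS hc (hmem z hz) (interior_subset hRz₀)
    have h5 : (fun l : ℝ => gq S ((1 - l) • z + l • z₀)) =ᶠ[𝓝[>] 0]
        (fun l : ℝ => gq S ((1 - l) • R z + l • R z₀)) := by
      filter_upwards [hl] with l h6
      rw [← h2 _ (hcomb z hz l h6.1 h6.2), hR, rf_comb]
    exact tendsto_nhds_unique (h4.congr' h5.symm) h3
  · have h3 : R z ∉ lv S := by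
      intro h4
      have := hmem _ h4
      rw [hRR] at this
      exact hz this
    rw [gq_zero hz, gq_zero h3]

/-- The integral over a line which meets the interior. -/
lemma line_int {S : Set (ℂ × ℝ)} (hS : IsCompact S) (hc : Convex ℝ S)
    (hne : (interior S).Nonempty) {ψ h : ℝ} (hh : ∃ z ∈ interior (lv S), tc ψ z = h) (c : ℝ) :
    ∫⁻ t in {t : ℝ | 0 < gq S (fr ψ (h, t + c))}, ENNReal.ofReal (2 / gq S (fr ψ (h, t + c))) =
      ∫⁻ t, ENNReal.ofReal (dn S (fr ψ (h, t))) := by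
  have hfr : ∀ (a b : ℝ) (s t : ℝ), a + b = 1 →
      fr ψ (h, a * s + b * t) = a • fr ψ (h, s) + b • fr ψ (h, t) := by
    intro a b s t hab
    unfold fr
    simp only [Complex.real_smul]
    push_cast
    have h1 : (a : ℂ) + b = 1 := by exact_mod_cast hab
    linear_combination (-(h : ℂ) * (Complex.I * e ψ)) * h1
  set A : Set ℝ := {t : ℝ | fr ψ (h, t) ∈ lv S} with hA
  set B : Set ℝ := {t : ℝ | fr ψ (h, t) ∈ interior (lv S)} with hB
  set P : Set ℝ := {t : ℝ | 0 < gq S (fr ψ (h, t))} with hP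
  have hAc : Convex ℝ A := by
    intro s hs t ht a b ha hb hab
    show fr ψ (h, a * s + b * t) ∈ lv S
    rw [hfr a b s t hab]
    exact lv_convex hc hs ht ha hb hab
  have hPc : Convex ℝ P := by
    intro s hs t ht a b ha hb hab
    show 0 < gq S (fr ψ (h, a * s + b * t))
    rw [hfr a b s t hab]
    have h1 : fr ψ (h, s) ∈ lv S := by
      by_contra hcon
      have h2 : 0 < gq S (fr ψ (h, s)) := hs
      rw [gq_zero hcon] at h2
      exact lt_irrefl _ h2
    have h1' : fr ψ (h, t) ∈ lv S := by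
      by_contra hcon
      have h2 : 0 < gq S (fr ψ (h, t)) := ht
      rw [gq_zero hcon] at h2
      exact lt_irrefl _ h2
    have h2 := (gq_concave hS hc).2 h1 h1' ha hb hab
    have h3 : 0 < gq S (fr ψ (h, s)) := hs
    have h4 : 0 < gq S (fr ψ (h, t)) := ht
    simp only [smul_eq_mul] at h2
    have h5 : 0 < a * gq S (fr ψ (h, s)) + b * gq S (fr ψ (h, t)) := by
      rcases ha.eq_or_lt with h6 | h6
      · rw [← h6, zero_mul, zero_add]
        have : b = 1 := by linarith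
        rw [this, one_mul]
        exact h4
      · have := mul_pos h6 h3
        have := mul_nonneg hb h4.le
        linarith
    linarith
  have hPm : MeasurableSet P := hPc.ordConnected.measurableSet
  have h1 : ∫⁻ t in {t : ℝ | 0 < gq S (fr ψ (h, t + c))},
      ENNReal.ofReal (2 / gq S (fr ψ (h, t + c))) =
      ∫⁻ t, P.indicator (fun t => ENNReal.ofReal (2 / gq S (fr ψ (h, t)))) (t + c) := by
    have hm : MeasurableSet {t : ℝ | 0 < gq S (fr ψ (h, t + c))} :=
      (measurable_add_const c) hPm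
    rw [← lintegral_indicator hm]
    rfl
  rw [h1, lintegral_add_right_eq_self
    (fun t => P.indicator (fun t => ENNReal.ofReal (2 / gq S (fr ψ (h, t)))) t) c]
  refine lintegral_congr_ae ?_
  have hfrc : Continuous (fun t : ℝ => fr ψ (h, t)) :=
    (Mrg.continuous_fr ψ).comp (by fun_prop)
  have hAB : interior A ⊆ B := by
    intro s hs
    obtain ⟨z₀, hz₀, hz₀h⟩ := hh
    set s₀ := yc ψ z₀ with hs₀
    have h2 : fr ψ (h, s₀) = z₀ := by
      rw [← hz₀h, hs₀, Mrg.fr_tc_yc]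
    have h3 : Tendsto (fun ε : ℝ => s + ε * (s - s₀)) (𝓝[>] 0) (𝓝 s) := by
      have h2 : Continuous (fun ε : ℝ => s + ε * (s - s₀)) := by fun_prop
      have h3 := h2.tendsto 0
      simp only [zero_mul, add_zero] at h3
      exact h3.mono_left nhdsWithin_le_nhds
    have h4 : ∀ᶠ ε : ℝ in 𝓝[>] 0, s + ε * (s - s₀) ∈ A ∧ 0 < ε := by
      filter_upwards [h3 (mem_interior_iff_mem_nhds.1 hs), self_mem_nhdsWithin] with ε h3 h4
      exact ⟨h3, h4⟩
    obtain ⟨ε, h5, hε⟩ := h4.exists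
    have hp : (0 : ℝ) < 1 + ε := by linarith
    have hab : 1 / (1 + ε) + ε / (1 + ε) = 1 := by field_simp
    have h6 := (lv_convex hc).combo_self_interior_mem_interior (x := fr ψ (h, s + ε * (s - s₀)))
      (y := z₀) h5 hz₀ (a := 1 / (1 + ε)) (b := ε / (1 + ε)) (by positivity) (by positivity) hab
    rw [← h2, ← hfr _ _ _ _ hab] at h6
    have h7 : 1 / (1 + ε) * (s + ε * (s - s₀)) + ε / (1 + ε) * s₀ = s := by
      field_simp
      ring
    rw [h7] at h6
    exact h6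
  have hAcl : IsClosed A := (lv_compact hS).isClosed.preimage hfrc
  have hnull : volume (A \ B) = 0 := by
    refine measure_mono_null ?_ (hAc.addHaar_frontier volume)
    intro s hs
    rw [hAcl.frontier_eq]
    exact ⟨hs.1, fun h2 => hs.2 (hAB h2)⟩
  have hae : ∀ᵐ t : ℝ, t ∉ A \ B := by
    rw [ae_iff]
    have h2 : {a : ℝ | ¬ a ∉ A \ B} = A \ B := by
      ext a
      simp only [mem_ofPred_eq, not_not]
    rw [h2]
    exact hnull
  filter_upwards [hae] with t ht
  by_cases htB : t ∈ B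
  · have h2 : t ∈ P := gq_pos hS hc hne htB
    have h3 : fr ψ (h, t) ∈ interior (lv S) := htB
    rw [indicator_of_mem h2]
    unfold dn
    rw [if_pos h3]
  · have h2 : t ∉ A := fun h3 => ht ⟨h3, htB⟩
    have h3 : gq S (fr ψ (h, t)) = 0 := gq_zero h2
    have h4 : t ∉ P := by
      intro h5
      have h6 : 0 < gq S (fr ψ (h, t)) := h5
      rw [h3] at h6
      exact lt_irrefl _ h6
    have h5 : fr ψ (h, t) ∉ interior (lv S) := htB
    rw [indicator_of_notMem h4]
    unfold dn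
    rw [if_neg h5, ENNReal.ofReal_zero]

/-! ### coordinates -/

lemma exb (v : Fin 3 → E3) (hv : Orthonormal ℝ v) :
    ∃ b : OrthonormalBasis (Fin 3) ℝ E3, ∀ i, b i = v i := by
  have hc : Fintype.card (Fin 3) = Module.finrank ℝ E3 := by simp
  have hB : ⇑(basisOfOrthonormalOfCardEqFinrank hv hc) = v :=
    coe_basisOfOrthonormalOfCardEqFinrank hv hc
  refine ⟨(basisOfOrthonormalOfCardEqFinrank hv hc).toOrthonormalBasis (by rw [hB]; exact hv),
    fun i => ?_⟩
  rw [Module.Basis.coe_toOrthonormalBasis, hB]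

lemma exb3 {x y z : E3} (hx : ‖x‖ = 1) (hy : ‖y‖ = 1) (hz : ‖z‖ = 1) (hxy : ⟪x, y⟫ = 0)
    (hxz : ⟪x, z⟫ = 0) (hyz : ⟪y, z⟫ = 0) :
    ∃ b : OrthonormalBasis (Fin 3) ℝ E3, b 0 = x ∧ b 1 = y ∧ b 2 = z := by
  have hv : Orthonormal ℝ ![x, y, z] := by
    rw [orthonormal_iff_ite]
    intro i j
    fin_cases i <;> fin_cases j <;>
      simp [real_inner_self_eq_norm_sq, hx, hy, hz, hxy, hxz, hyz, real_inner_comm]
  obtain ⟨b, hb⟩ := exb _ hv
  exact ⟨b, hb 0, hb 1, hb 2⟩

lemma coord_fr {β b : OrthonormalBasis (Fin 3) ℝ E3} {ψ : ℝ} (h0 : b 0 = β 2)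
    (h1 : b 1 = Real.cos ψ • β 0 + Real.sin ψ • β 1)
    (h2 : b 2 = -Real.sin ψ • β 0 + Real.cos ψ • β 1) (h t s : ℝ) :
    coord b ((t : ℂ) * (Complex.I * e 0) + s * e 0, h) = coord β (fr ψ (h, t), s) := by
  unfold coord
  simp only [fr, Complex.add_re, Complex.add_im, Complex.mul_re, Complex.mul_im,
    Complex.ofReal_re, Complex.ofReal_im, e_re, e_im, Complex.I_re, Complex.I_im, Real.cos_zero,
    Real.sin_zero]
  rw [h0, h1, h2]
  module

lemma xr_sec' {β b : OrthonormalBasis (Fin 3) ℝ E3} {ψ : ℝ} (h0 : b 0 = β 2)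
    (h1 : b 1 = Real.cos ψ • β 0 + Real.sin ψ • β 1)
    (h2 : b 2 = -Real.sin ψ • β 0 + Real.cos ψ • β 1) (K : Set E3) (h t : ℝ) :
    xr (sec (coordE b ⁻¹' K) h) 0 t = gq (coordE β ⁻¹' K) (fr ψ (h, t)) := by
  have h3 : {s : ℝ | (t : ℂ) * (Complex.I * e 0) + s * e 0 ∈ sec (coordE b ⁻¹' K) h} =
      sl (coordE β ⁻¹' K) (fr ψ (h, t)) := by
    ext s
    show coord b ((t : ℂ) * (Complex.I * e 0) + s * e 0, h) ∈ K ↔ coord β (fr ψ (h, t), s) ∈ K
    rw [coord_fr h0 h1 h2]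
  unfold xr gq
  rw [h3]

lemma xr_tr (C : Set ℂ) (c : ℂ) (t : ℝ) : xr (tr C c) 0 t = xr C 0 (t + c.im) := by
  have h1 : {s : ℝ | (t : ℂ) * (Complex.I * e 0) + s * e 0 ∈ tr C c} =
      (fun s => s + c.re) ⁻¹'
        {s : ℝ | ((t + c.im : ℝ) : ℂ) * (Complex.I * e 0) + s * e 0 ∈ C} := by
    ext s
    rw [mem_ofPred_eq, mem_tr, mem_preimage, mem_ofPred_eq]
    have h2 : (t : ℂ) * (Complex.I * e 0) + s * e 0 + c =
        ((t + c.im : ℝ) : ℂ) * (Complex.I * e 0) + ((s + c.re : ℝ) : ℂ) * e 0 := by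
      apply Complex.ext <;>
      simp only [Complex.add_re, Complex.add_im, Complex.mul_re, Complex.mul_im,
        Complex.ofReal_re, Complex.ofReal_im, e_re, e_im, Complex.I_re, Complex.I_im,
        Real.cos_zero, Real.sin_zero] <;> ring
    rw [h2]
  unfold xr
  rw [h1, measure_preimage_add_right]

end Mrk

open Mrk in
/-- Row MRK, without hypotheses (the file of helper92 has the same with `MRGStmt` as input). -/
theorem mrk_direct : MRKStmt := by
  intro K u w w' D hK hw hw' hww hD hmain ψ₁ b₁ hb0 hb1 hb2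
  obtain ⟨β, hβ0, hβ1, hβ2⟩ := exb3 hw.2.1 hw'.2.1 hw.1 hww (by rw [real_inner_comm]; exact hw.2.2)
    (by rw [real_inner_comm]; exact hw'.2.2)
  have hβK := body3_preimage β hK
  set S : Set (ℂ × ℝ) := coordE β ⁻¹' K with hS
  have hSc := hβK.cpt
  have hSv := hβK.conv
  have hSn := hβK.ne
  have hne : (interior (lv S)).Nonempty := by
    obtain ⟨⟨z, y⟩, hz⟩ := hSn
    exact ⟨z, lv_int hz⟩
  have hint : ∀ b : OrthonormalBasis (Fin 3) ℝ E3, interior (coordE b ⁻¹' K) =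
      coordE b ⁻¹' interior K := fun b => ((coordE b).toHomeomorph.preimage_interior K).symm
  have key : ∀ ψ ∈ D, ∃ c : ℝ≥0∞, c ≠ ⊤ ∧ ∀ h : ℝ, (∃ z ∈ interior (lv S), tc ψ z = h) →
      ∫⁻ s : ℝ, ENNReal.ofReal (dn S ((h : ℂ) * (Complex.I * e ψ) + s * e ψ)) = c := by
    intro ψ hψ
    have hsc := Real.sin_sq_add_cos_sq ψ
    have i1 : ⟪w, w⟫ = 1 := by rw [real_inner_self_eq_norm_sq, hw.2.1, one_pow]
    have i2 : ⟪w', w'⟫ = 1 := by rw [real_inner_self_eq_norm_sq, hw'.2.1, one_pow]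
    have i3 : ⟪w', w⟫ = 0 := by rw [real_inner_comm]; exact hww
    have n1 : ‖Real.cos ψ • w + Real.sin ψ • w'‖ = 1 := by
      have : ⟪Real.cos ψ • w + Real.sin ψ • w', Real.cos ψ • w + Real.sin ψ • w'⟫ = 1 := by
        simp only [inner_add_left, inner_add_right, inner_smul_left, inner_smul_right,
          i1, i2, i3, hww, RCLike.conj_to_real]
        linear_combination hsc
      rw [real_inner_self_eq_norm_sq] at this
      exact (pow_eq_one_iff_of_nonneg (norm_nonneg _) two_ne_zero).1 this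
    have n2 : ‖-Real.sin ψ • w + Real.cos ψ • w'‖ = 1 := by
      have : ⟪-Real.sin ψ • w + Real.cos ψ • w', -Real.sin ψ • w + Real.cos ψ • w'⟫ = 1 := by
        simp only [inner_add_left, inner_add_right, inner_smul_left, inner_smul_right,
          i1, i2, i3, hww, RCLike.conj_to_real]
        linear_combination hsc
      rw [real_inner_self_eq_norm_sq] at this
      exact (pow_eq_one_iff_of_nonneg (norm_nonneg _) two_ne_zero).1 this
    obtain ⟨b, hc0, hc1, hc2⟩ := exb3 hw.1 n1 n2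
      (by rw [inner_add_right, inner_smul_right, inner_smul_right, hw.2.2, hw'.2.2]; ring)
      (by rw [inner_add_right, inner_smul_right, inner_smul_right, hw.2.2, hw'.2.2]; ring)
      (by
        simp only [inner_add_left, inner_add_right, inner_smul_left, inner_smul_right,
          i1, i2, i3, hww, RCLike.conj_to_real]
        ring)
    obtain ⟨c, hc, hcc⟩ := hmain ψ hψ b hc0 hc1 hc2
    refine ⟨c, hc, fun h hh => ?_⟩
    have hd0 : b 0 = β 2 := by rw [hc0, hβ2]
    have hd1 : b 1 = Real.cos ψ • β 0 + Real.sin ψ • β 1 := by rw [hc1, hβ0, hβ1]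
    have hd2 : b 2 = -Real.sin ψ • β 0 + Real.cos ψ • β 1 := by rw [hc2, hβ0, hβ1]
    have hh2 : h ∈ Hts (coordE b ⁻¹' K) := by
      obtain ⟨z, hz, rfl⟩ := hh
      obtain ⟨y, hy⟩ := int_lv hSv hSn hz
      rw [hS, hint β] at hy
      have hy2 : coord β (z, y) ∈ interior K := hy
      refine ⟨((yc ψ z : ℝ) : ℂ) * (Complex.I * e 0) + y * e 0, ?_⟩
      rw [hint b]
      show coord b (((yc ψ z : ℝ) : ℂ) * (Complex.I * e 0) + y * e 0, tc ψ z) ∈ interior K
      rw [coord_fr hd0 hd1 hd2, Mrg.fr_tc_yc]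
      exact hy2
    have h3 := hcc h hh2
    have h4 : ∀ t, xr (Cq (coordE b ⁻¹' K) h) 0 t =
        gq S (fr ψ (h, t + (cen (sec (coordE b ⁻¹' K) h)).im)) := by
      intro t
      unfold Cq
      rw [xr_tr, xr_sec' hd0 hd1 hd2]
    unfold Tm at h3
    simp only [h4] at h3
    rw [line_int hSc hSv hSn hh] at h3
    exact h3
  have hsupp : ∀ z, z ∉ interior (lv S) → dn S z = 0 := by
    intro z hz
    unfold dn
    rw [if_neg hz]
  have hpos : ∀ z ∈ interior (lv S), 0 < dn S z := by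
    intro z hz
    unfold dn
    rw [if_pos hz]
    exact div_pos two_pos (gq_pos hSc hSv hSn hz)
  obtain ⟨c₀, c₁, hsym⟩ := t_mrg (lv S) (dn S) D (lv_convex hSv) (lv_compact hSc) hne
    (fun z => by
      by_cases hz : z ∈ interior (lv S)
      · exact (hpos z hz).le
      · exact (hsupp z hz).ge)
    (by
      have h1 : ContinuousOn (fun z => 2 / gq S z) (interior (lv S)) :=
        continuousOn_const.div (gq_concave hSc hSv).continuousOn_interior
          (fun z hz => (gq_pos hSc hSv hSn hz).ne')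
      refine h1.congr fun z hz => ?_
      unfold dn
      rw [if_pos hz])
    hpos hsupp hD key ψ₁
  have hrf : ∀ z, dn S (Mrg.rf ψ₁ c₀ c₁ z) = dn S z := by
    intro z
    have h1 := hsym (tc ψ₁ z) (yc ψ₁ z - (c₀ + c₁ * tc ψ₁ z))
    have e1 : c₀ + c₁ * tc ψ₁ z + (yc ψ₁ z - (c₀ + c₁ * tc ψ₁ z)) = yc ψ₁ z := by ring
    have e2 : c₀ + c₁ * tc ψ₁ z - (yc ψ₁ z - (c₀ + c₁ * tc ψ₁ z)) =
        2 * (c₀ + c₁ * tc ψ₁ z) - yc ψ₁ z := by ring
    rw [e1, e2] at h1
    have e3 : fr ψ₁ (tc ψ₁ z, yc ψ₁ z) = z := Mrg.fr_tc_yc ψ₁ z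
    have h2 : dn S (fr ψ₁ (tc ψ₁ z, yc ψ₁ z)) =
        dn S (fr ψ₁ (tc ψ₁ z, 2 * (c₀ + c₁ * tc ψ₁ z) - yc ψ₁ z)) := h1
    rw [e3] at h2
    exact h2.symm
  refine ⟨c₀, c₁, fun h _ t => ?_⟩
  have hd0 : b₁ 0 = β 2 := by rw [hb0, hβ2]
  have hd1 : b₁ 1 = Real.cos ψ₁ • β 0 + Real.sin ψ₁ • β 1 := by rw [hb1, hβ0, hβ1]
  have hd2 : b₁ 2 = -Real.sin ψ₁ • β 0 + Real.cos ψ₁ • β 1 := by rw [hb2, hβ0, hβ1]
  rw [xr_sec' hd0 hd1 hd2, xr_sec' hd0 hd1 hd2]
  have h5 : Mrg.rf ψ₁ c₀ c₁ (fr ψ₁ (h, c₀ + c₁ * h + t)) = fr ψ₁ (h, c₀ + c₁ * h - t) := by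
    unfold Mrg.rf
    rw [tc_fr, Mrg.yc_fr]
    congr 2
    simp only
    ring
  rw [← h5]
  exact (gq_rf hSc hSv hSn hrf _).symm

end Pool.XR2
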